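import Pool.Agent.N333.GR.Stm

/-!
# Project GR, part BIG: many big jumps (helper747)

`S_BIG` with the hypothesis `1 ≤ G` (for `G = 0` the walk says nothing about `T 1`).
-/

set_option autoImplicit false

namespace Pool.Agent.N333.GR.BIG

open Finset Pool.Agent.N333.GR

section

variable {N G T0 D : ℕ} {T j : ℕ → ℕ}

lemma inc (h : Walk N G T j) {n : ℕ} (h2 : 2 ≤ n) (hn : n ≤ G) : T n + 1 ≤ T (n + 1) := by
  have h3 := h.step n h2 hn
  have h4 := h.pos n h2 hn
  omega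

lemma ge2 (h : Walk N G T j) : ∀ n, 2 ≤ n → n ≤ G + 1 → 2 ≤ T n := by
  intro n hn
  induction n, hn using Nat.le_induction with
  | base => intro _; exact h.start.ge
  | succ n hn ih =>
    intro hG
    have := ih (by omega)
    have := inc h hn (by omega)
    omega

lemma mono (h : Walk N G T j) {m : ℕ} (hm : 2 ≤ m) : ∀ n, m ≤ n → n ≤ G + 1 → T m ≤ T n := by
  intro n hn
  induction n, hn using Nat.le_induction with
  | base => intro _; exact le_rfl
  | succ n hn ih =>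
    intro hG
    have := ih (by omega)
    have := inc h (hm.trans hn) (by omega : n ≤ G)
    omega

/-- the first time at which `T` is at least `4 ^ i * T0` -/
lemma first (h : Walk N G T j) (h1 : 1 ≤ G) (h3 : 3 ≤ T0) (hG : G ≤ T0) (i : ℕ)
    (hi : 4 ^ i * T0 < T (G + 1)) : ∃ m, 2 ≤ m ∧ m ≤ G + 1 ∧ 4 ^ i * T0 ≤ T m ∧
      T m < 3 * (4 ^ i * T0) ∧ ∀ n, 2 ≤ n → n < m → T n < 4 ^ i * T0 := by
  classical
  have hex : ∃ m, 2 ≤ m ∧ 4 ^ i * T0 ≤ T m := ⟨G + 1, by omega, hi.le⟩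
  obtain ⟨m, hm⟩ : ∃ m, m = Nat.find hex := ⟨_, rfl⟩
  have hsp : 2 ≤ m ∧ 4 ^ i * T0 ≤ T m := hm ▸ Nat.find_spec hex
  have hmin : ∀ n, 2 ≤ n → n < m → T n < 4 ^ i * T0 := by
    intro n h2 hn
    have := Nat.find_min hex (hm ▸ hn)
    by_contra hc
    exact this ⟨h2, not_lt.1 hc⟩
  have hmG : m ≤ G + 1 := by
    by_contra hc
    exact absurd (hmin (G + 1) (by omega) (by omega)) (not_lt.2 hi.le)
  have hpow : 1 ≤ 4 ^ i := Nat.one_le_pow _ _ (by norm_num)
  have hT0 : T0 ≤ 4 ^ i * T0 := Nat.le_mul_of_pos_left _ hpow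
  have hm3 : 3 ≤ m := by
    by_contra hc
    have e : m = 2 := by omega
    have h4 := hsp.2
    rw [e, h.start] at h4
    omega
  refine ⟨m, hsp.1, hmG, hsp.2, ?_, hmin⟩
  obtain ⟨n, rfl⟩ : ∃ n, m = n + 1 := ⟨m - 1, by omega⟩
  have hn2 : 2 ≤ n := by omega
  have hnG : n ≤ G := by omega
  have h5 := hmin n hn2 (by omega)
  have h6 := h.step n hn2 hnG
  rcases Nat.mod_two_eq_zero_or_one n with h7 | h7
  · have h8 := h.even n hn2 hnG h7
    omega
  · have h8 := Nat.le_of_dvd (by have := ge2 h n hn2 (by omega); omega) (h.dvdT n hn2 hnG h7)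
    omega

/-- small jumps -/
lemma small (h : Walk N G T j) {m : ℕ} (hm : 2 ≤ m) : ∀ k, m + k ≤ G + 1 →
    (∀ n, m ≤ n → n < m + k → j n < D) → T (m + k) ≤ T m + 2 * (D * k) := by
  intro k
  induction k with
  | zero => intro _ _; simp
  | succ k ih =>
    intro hk hD
    have h1 := ih (by omega) (fun n h2 h3 => hD n h2 (by omega))
    have h2 := hD (m + k) (by omega) (by omega)
    have h3 := h.step (m + k) (by omega) (by omega)
    have h4 : D * (k + 1) = D * k + D := by ring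
    rw [show m + (k + 1) = m + k + 1 by ring, h4]
    omega

lemma one (h : Walk N G T j) (h1 : 1 ≤ G) (h3 : 3 ≤ T0) (hG : G ≤ T0) (hD : 2 * G * D < T0)
    (i : ℕ) (hi : 4 ^ (i + 1) * T0 < T (G + 1)) :
    ∃ n ∈ J G T0 D T j, 4 ^ i * T0 ≤ T n ∧ T n < 4 ^ (i + 1) * T0 := by
  have hpow : 1 ≤ 4 ^ i := Nat.one_le_pow _ _ (by norm_num)
  have hT0 : T0 ≤ 4 ^ i * T0 := Nat.le_mul_of_pos_left _ hpow
  have e4 : 4 ^ (i + 1) * T0 = 4 * (4 ^ i * T0) := by ring
  obtain ⟨m, hm2, hmG, hm, hm3, hmin⟩ := first h h1 h3 hG i (by omega)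
  obtain ⟨m', hm2', hmG', hm', hm3', hmin'⟩ := first h h1 h3 hG (i + 1) hi
  have hmm : m ≤ m' := by
    by_contra hc
    have := hmin m' hm2' (by omega)
    omega
  by_contra hcon
  have hall : ∀ n, m ≤ n → n < m + (m' - m) → j n < D := by
    intro n hn1 hn2
    by_contra hc
    refine hcon ⟨n, ?_, ?_, ?_⟩
    · unfold J
      refine mem_filter.2 ⟨mem_Icc.2 ⟨by omega, by omega⟩, ?_, not_lt.1 hc⟩
      exact hT0.trans (hm.trans (mono h hm2 n hn1 (by omega)))
    · exact hm.trans (mono h hm2 n hn1 (by omega))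
    · exact hmin' n (by omega) (by omega)
  have h5 := small h hm2 (m' - m) (by omega) hall
  rw [show m + (m' - m) = m' by omega] at h5
  have h6 : D * (m' - m) ≤ D * G := Nat.mul_le_mul_left _ (by omega)
  have h7 : 2 * G * D = 2 * (D * G) := by ring
  omega

end

theorem big (N G T0 D M : ℕ) (T j : ℕ → ℕ) (h : Walk N G T j) (h1 : 1 ≤ G) (h3 : 3 ≤ T0)
    (hG : G ≤ T0) (hD : 2 * G * D < T0) (hM : 4 ^ M * T0 < T (G + 1)) :
    M ≤ (J G T0 D T j).card := by
  classical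
  have hex : ∀ i ∈ range M, ∃ n ∈ J G T0 D T j, 4 ^ i * T0 ≤ T n ∧ T n < 4 ^ (i + 1) * T0 := by
    intro i hi
    refine one h h1 h3 hG hD i (lt_of_le_of_lt ?_ hM)
    exact Nat.mul_le_mul_right _ (Nat.pow_le_pow_right (by norm_num) (mem_range.1 hi))
  choose! f hf1 hf2 hf3 using hex
  have hcard := card_le_card_of_injOn (s := range M) (t := J G T0 D T j) f
    (fun i hi => hf1 i hi) ?_
  · rwa [card_range] at hcard
  · have key : ∀ i ∈ range M, ∀ k ∈ range M, i < k → f i ≠ f k := by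
      intro i hi k hk hik e
      have h4 := hf3 i hi
      have h5 := hf2 k hk
      rw [← e] at h5
      have h6 : 4 ^ (i + 1) * T0 ≤ 4 ^ k * T0 :=
        Nat.mul_le_mul_right _ (Nat.pow_le_pow_right (by norm_num) hik)
      omega
    intro i hi k hk e
    rcases lt_trichotomy i k with h4 | h4 | h4
    · exact absurd e (key i hi k hk h4)
    · exact h4
    · exact absurd e.symm (key k hk i hi h4)

theorem t_BIG : ∀ (N G T0 D M : ℕ) (T j : ℕ → ℕ), Walk N G T j → 1 ≤ G → 3 ≤ T0 → G ≤ T0 →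
    2 * G * D < T0 → 4 ^ M * T0 < T (G + 1) → M ≤ (J G T0 D T j).card := big

end Pool.Agent.N333.GR.BIG
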