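import Pool.Agent.N333.GR.Stm

/-!
# The union bound for bad runs
-/

set_option autoImplicit false

namespace Pool.Agent.N333.GR.Cnt

open Finset

/-- the times after the times of `c` -/
def ns (G : ℕ) (c : List (ℕ × ℕ)) : Finset ℕ :=
  (Icc 1 G).filter (fun n => n % 2 = 1 ∧ ∀ p ∈ c, p.1 < n)

/-- the sums of the next pair -/
def F (G Y Ts : ℕ) (x : Prop) [Decidable x] (t' d : ℕ) : Finset ℕ :=
  if x then (Icc 1 Ts).filter (fun t => d ∣ t ∧ t' ≤ t ∧ Y * (t - t') < d)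
  else (Icc 1 Ts).filter (fun t => d ∣ t ∧ t' ≤ t ∧ t ≤ t' + 2 * G * d)

/-- there is a continuation of length `k` with the pattern `S` -/
def BB (G Y Ts D : ℕ) (S : Finset ℕ) (N : ℕ) : ℕ → List (ℕ × ℕ) → ℕ → Prop
  | 0, c, _ => ∀ p ∈ c, (p.2 : ℤ) ∣ 2 * (N : ℤ) - p.1
  | k + 1, c, t' => ∃ n ∈ ns G c, ∃ d ∈ Icc D Ts, ∃ t ∈ F G Y Ts (k ∈ S) t' d,
      BB G Y Ts D S N k ((n, d) :: c) (t + 2 * d)

lemma ns_card (G : ℕ) (c : List (ℕ × ℕ)) : (ns G c).card ≤ G := by
  unfold ns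
  refine (Finset.card_filter_le _ _).trans ?_
  rw [Nat.card_Icc, Nat.add_sub_cancel]

lemma F_card (G Y Ts : ℕ) (x : Prop) [Decidable x] (t' d : ℕ) : (F G Y Ts x t' d).card ≤ Ts := by
  unfold F
  split_ifs
  · refine (Finset.card_filter_le _ _).trans ?_
    rw [Nat.card_Icc, Nat.add_sub_cancel]
  · refine (Finset.card_filter_le _ _).trans ?_
    rw [Nat.card_Icc, Nat.add_sub_cancel]

lemma F_ge {G Y Ts : ℕ} {x : Prop} [Decidable x] {t' d t : ℕ} (h : t ∈ F G Y Ts x t' d) :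
    t' ≤ t := by
  unfold F at h
  split_ifs at h
  · exact (Finset.mem_filter.1 h).2.2.1
  · exact (Finset.mem_filter.1 h).2.2.1

open Classical in
theorem claim (hC : S_CRT) (hB : S_WB) (hA : S_WA) (G Y T0 Ts D X r : ℕ) (S : Finset ℕ) (hG : 1 ≤ G)
    (hY : 2 ≤ Y) (hT0 : 1 ≤ T0) (hTs : 1 ≤ Ts) (hD : 1 ≤ D) (hTY : Ts ^ 2 * Y ≤ T0 * D ^ 2) :
    ∀ (k : ℕ) (c : List (ℕ × ℕ)) (t' : ℕ), c.Pairwise (fun p q => q.1 < p.1) →
    (∀ p ∈ c, p.1 ≤ G ∧ p.1 % 2 = 1 ∧ 0 < p.2) → c.length + k ≤ r → T0 ≤ t' →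
    (((Icc 1 X).filter (fun N : ℕ => BB G Y Ts D S N k c t')).card : ℝ) ≤
      (X : ℝ) * (G : ℝ) ^ (r ^ 2) / ((c.map Prod.snd).prod : ℕ) *
        (∏ i ∈ range k, (if i ∈ S then 3 * (G : ℝ) ^ 2 * (1 + Real.log Ts) / Y else
          3 * (G : ℝ) ^ 2 * (1 + Real.log Ts))) + (G * (Ts : ℝ) ^ 2) ^ k := by
  have hG' : (1 : ℝ) ≤ G := by exact_mod_cast hG
  have hY' : (2 : ℝ) ≤ Y := by exact_mod_cast hY
  have hTs' : (1 : ℝ) ≤ Ts := by exact_mod_cast hTs
  have hlog : 0 ≤ Real.log Ts := Real.log_nonneg hTs'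
  set Q : ℝ := 3 * (G : ℝ) ^ 2 * (1 + Real.log Ts) with hQ
  have hQ0 : 0 < Q := by positivity
  intro k
  induction k with
  | zero =>
    intro c t' h1 h2 h3 _
    have h4 := hC G X c hG h1 h2
    have h5 : (Icc 1 X).filter (fun N : ℕ => BB G Y Ts D S N 0 c t') =
        (Icc 1 X).filter (fun N : ℕ => ∀ p ∈ c, (p.2 : ℤ) ∣ 2 * (N : ℤ) - p.1) := by
      ext N
      rw [Finset.mem_filter, Finset.mem_filter]
      exact Iff.rfl
    have h6 : ((((Icc 1 X).filter (fun N : ℕ => BB G Y Ts D S N 0 c t')).card : ℕ) : ℝ) ≤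
        (X : ℝ) * (G : ℝ) ^ (c.length ^ 2) / ((c.map Prod.snd).prod : ℕ) + 1 := by
      rw [h5]
      convert h4
    refine h6.trans ?_
    rw [Finset.prod_range_zero, mul_one, pow_zero]
    have h7 : (G : ℝ) ^ (c.length ^ 2) ≤ (G : ℝ) ^ (r ^ 2) :=
      pow_le_pow_right₀ hG' (Nat.pow_le_pow_left (by omega) 2)
    gcongr
  | succ k ih =>
    intro c t' h1 h2 h3 h4
    set W : ℝ := ∏ i ∈ range k, (if i ∈ S then Q / Y else Q) with hW
    have hW0 : 0 ≤ W := Finset.prod_nonneg fun i _ => by split_ifs <;> positivity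
    set Pc : ℝ := (((c.map Prod.snd).prod : ℕ) : ℝ) with hPc
    have hPc0 : 0 < Pc := by
      rw [hPc]
      have : 0 < (c.map Prod.snd).prod := by
        apply List.prod_pos
        intro a ha
        obtain ⟨p, hp, rfl⟩ := List.mem_map.1 ha
        exact (h2 p hp).2.2
      exact_mod_cast this
    set A : ℝ := (X : ℝ) * (G : ℝ) ^ (r ^ 2) / Pc * W with hAd
    have hA0 : 0 ≤ A := by positivity
    set B : ℝ := (G * (Ts : ℝ) ^ 2) ^ k with hBd
    have hB0 : 0 ≤ B := by positivity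
    -- the union
    have hsub : (Icc 1 X).filter (fun N : ℕ => BB G Y Ts D S N (k + 1) c t') ⊆
        (ns G c).biUnion fun n => (Icc D Ts).biUnion fun d => (F G Y Ts (k ∈ S) t' d).biUnion
          fun t => (Icc 1 X).filter (fun N : ℕ => BB G Y Ts D S N k ((n, d) :: c) (t + 2 * d)) := by
      intro N hN
      obtain ⟨hN1, n, hn, d, hd, t, ht, hb⟩ := Finset.mem_filter.1 hN
      rw [Finset.mem_biUnion]
      refine ⟨n, hn, ?_⟩
      rw [Finset.mem_biUnion]
      refine ⟨d, hd, ?_⟩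
      rw [Finset.mem_biUnion]
      exact ⟨t, ht, Finset.mem_filter.2 ⟨hN1, hb⟩⟩
    have hone : ∀ n ∈ ns G c, ∀ d ∈ Icc D Ts, ∀ t ∈ F G Y Ts (k ∈ S) t' d,
        ((((Icc 1 X).filter (fun N : ℕ => BB G Y Ts D S N k ((n, d) :: c) (t + 2 * d))).card : ℕ) : ℝ)
          ≤ A * (1 / (d : ℝ)) + B := by
      intro n hn d hd t ht
      rw [ns, Finset.mem_filter, Finset.mem_Icc] at hn
      rw [Finset.mem_Icc] at hd
      have hd0 : 0 < d := by omega
      have h5 := ih ((n, d) :: c) (t + 2 * d) (List.pairwise_cons.2 ⟨fun p hp => hn.2.2 p hp, h1⟩)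
        (by
          intro p hp
          rcases List.mem_cons.1 hp with rfl | hp
          · exact ⟨hn.1.2, hn.2.1, hd0⟩
          · exact h2 p hp)
        (by simp only [List.length_cons]; omega) (by have := F_ge ht; omega)
      refine h5.trans (le_of_eq ?_)
      rw [List.map_cons, List.prod_cons, hAd, hPc]
      push_cast
      have hd1 : (0 : ℝ) < d := by exact_mod_cast hd0
      field_simp
    have hcard : ((((Icc 1 X).filter (fun N : ℕ => BB G Y Ts D S N (k + 1) c t')).card : ℕ) : ℝ) ≤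
        ∑ n ∈ ns G c, ∑ d ∈ Icc D Ts, ∑ t ∈ F G Y Ts (k ∈ S) t' d, (A * (1 / (d : ℝ)) + B) := by
      calc ((((Icc 1 X).filter (fun N : ℕ => BB G Y Ts D S N (k + 1) c t')).card : ℕ) : ℝ)
          ≤ (((ns G c).biUnion fun n => (Icc D Ts).biUnion fun d =>
            (F G Y Ts (k ∈ S) t' d).biUnion fun t => (Icc 1 X).filter
              (fun N : ℕ => BB G Y Ts D S N k ((n, d) :: c) (t + 2 * d))).card : ℝ) := by
            exact_mod_cast Finset.card_le_card hsub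
        _ ≤ ∑ n ∈ ns G c, (((Icc D Ts).biUnion fun d =>
            (F G Y Ts (k ∈ S) t' d).biUnion fun t => (Icc 1 X).filter
              (fun N : ℕ => BB G Y Ts D S N k ((n, d) :: c) (t + 2 * d))).card : ℝ) := by
            exact_mod_cast Finset.card_biUnion_le
        _ ≤ ∑ n ∈ ns G c, ∑ d ∈ Icc D Ts, (((F G Y Ts (k ∈ S) t' d).biUnion fun t =>
            (Icc 1 X).filter
              (fun N : ℕ => BB G Y Ts D S N k ((n, d) :: c) (t + 2 * d))).card : ℝ) := by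
            refine Finset.sum_le_sum fun n _ => ?_
            exact_mod_cast Finset.card_biUnion_le
        _ ≤ ∑ n ∈ ns G c, ∑ d ∈ Icc D Ts, ∑ t ∈ F G Y Ts (k ∈ S) t' d, ((((Icc 1 X).filter
              (fun N : ℕ => BB G Y Ts D S N k ((n, d) :: c) (t + 2 * d))).card : ℕ) : ℝ) := by
            refine Finset.sum_le_sum fun n _ => Finset.sum_le_sum fun d _ => ?_
            exact_mod_cast Finset.card_biUnion_le
        _ ≤ _ := Finset.sum_le_sum fun n hn => Finset.sum_le_sum fun d hd =>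
            Finset.sum_le_sum fun t ht => hone n hn d hd t ht
    refine hcard.trans ?_
    have hwt : (G : ℝ) * ∑ d ∈ Icc D Ts, ∑ _t ∈ F G Y Ts (k ∈ S) t' d, (1 / (d : ℝ)) ≤
        if k ∈ S then Q / Y else Q := by
      unfold F
      by_cases hk : k ∈ S
      · simp only [hk, if_true]
        have h5 := hB D T0 Ts Y t' hD hY hT0 h4 hTY
        calc (G : ℝ) * ∑ d ∈ Icc D Ts, ∑ _t ∈ (Icc 1 Ts).filter
              (fun t => d ∣ t ∧ t' ≤ t ∧ Y * (t - t') < d), (1 / (d : ℝ))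
            ≤ (G : ℝ) * (3 * (1 + Real.log Ts) / Y) := mul_le_mul_of_nonneg_left h5 (by linarith)
          _ ≤ (G : ℝ) ^ 2 * (3 * (1 + Real.log Ts) / Y) := by
              apply mul_le_mul_of_nonneg_right _ (by positivity)
              nlinarith
          _ = Q / Y := by rw [hQ]; ring
      · simp only [hk, if_false]
        have h5 := hA D Ts G t' hD hG
        calc (G : ℝ) * ∑ d ∈ Icc D Ts, ∑ _t ∈ (Icc 1 Ts).filter
              (fun t => d ∣ t ∧ t' ≤ t ∧ t ≤ t' + 2 * G * d), (1 / (d : ℝ))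
            ≤ (G : ℝ) * (3 * G * (1 + Real.log Ts)) := mul_le_mul_of_nonneg_left h5 (by linarith)
          _ = Q := by rw [hQ]; ring
    have hsum0 : 0 ≤ ∑ d ∈ Icc D Ts, ∑ _t ∈ F G Y Ts (k ∈ S) t' d, (1 / (d : ℝ)) :=
      Finset.sum_nonneg fun d _ => Finset.sum_nonneg fun t _ => by positivity
    have hn : ((ns G c).card : ℝ) ≤ G := by exact_mod_cast ns_card G c
    have hin : ∑ d ∈ Icc D Ts, ∑ _t ∈ F G Y Ts (k ∈ S) t' d, (A * (1 / (d : ℝ)) + B) ≤
        A * (∑ d ∈ Icc D Ts, ∑ _t ∈ F G Y Ts (k ∈ S) t' d, (1 / (d : ℝ))) + B * (Ts : ℝ) ^ 2 := by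
      have e1 : ∑ d ∈ Icc D Ts, ∑ _t ∈ F G Y Ts (k ∈ S) t' d, (A * (1 / (d : ℝ)) + B) =
          A * (∑ d ∈ Icc D Ts, ∑ _t ∈ F G Y Ts (k ∈ S) t' d, (1 / (d : ℝ))) +
            ∑ d ∈ Icc D Ts, ((F G Y Ts (k ∈ S) t' d).card : ℝ) * B := by
        rw [Finset.mul_sum, ← Finset.sum_add_distrib]
        refine Finset.sum_congr rfl fun d _ => ?_
        rw [Finset.sum_add_distrib, Finset.mul_sum]
        congr 1
        rw [Finset.sum_const, nsmul_eq_mul]
      rw [e1]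
      have e2 : ∑ d ∈ Icc D Ts, ((F G Y Ts (k ∈ S) t' d).card : ℝ) * B ≤ B * (Ts : ℝ) ^ 2 := by
        calc ∑ d ∈ Icc D Ts, ((F G Y Ts (k ∈ S) t' d).card : ℝ) * B
            ≤ ∑ d ∈ Icc D Ts, (Ts : ℝ) * B := by
              refine Finset.sum_le_sum fun d _ => ?_
              have : ((F G Y Ts (k ∈ S) t' d).card : ℝ) ≤ Ts := by exact_mod_cast F_card _ _ _ _ _ _
              exact mul_le_mul_of_nonneg_right this hB0
          _ = ((Icc D Ts).card : ℝ) * ((Ts : ℝ) * B) := by rw [Finset.sum_const, nsmul_eq_mul]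
          _ ≤ (Ts : ℝ) * ((Ts : ℝ) * B) := by
              have h8 : ((Icc D Ts).card : ℝ) ≤ Ts := by
                have : (Icc D Ts).card ≤ Ts := by rw [Nat.card_Icc]; omega
                exact_mod_cast this
              exact mul_le_mul_of_nonneg_right h8 (by positivity)
          _ = B * (Ts : ℝ) ^ 2 := by ring
      linarith
    have hin0 : 0 ≤ A * (∑ d ∈ Icc D Ts, ∑ _t ∈ F G Y Ts (k ∈ S) t' d, (1 / (d : ℝ))) +
        B * (Ts : ℝ) ^ 2 := by positivity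
    calc ∑ n ∈ ns G c, ∑ d ∈ Icc D Ts, ∑ t ∈ F G Y Ts (k ∈ S) t' d, (A * (1 / (d : ℝ)) + B)
        ≤ ∑ _n ∈ ns G c, (A * (∑ d ∈ Icc D Ts, ∑ _t ∈ F G Y Ts (k ∈ S) t' d, (1 / (d : ℝ))) +
          B * (Ts : ℝ) ^ 2) := Finset.sum_le_sum fun n _ => hin
      _ = ((ns G c).card : ℝ) * (A * (∑ d ∈ Icc D Ts, ∑ _t ∈ F G Y Ts (k ∈ S) t' d,
          (1 / (d : ℝ))) + B * (Ts : ℝ) ^ 2) := by rw [Finset.sum_const, nsmul_eq_mul]
      _ ≤ (G : ℝ) * (A * (∑ d ∈ Icc D Ts, ∑ _t ∈ F G Y Ts (k ∈ S) t' d,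
          (1 / (d : ℝ))) + B * (Ts : ℝ) ^ 2) := mul_le_mul_of_nonneg_right hn hin0
      _ = A * ((G : ℝ) * ∑ d ∈ Icc D Ts, ∑ _t ∈ F G Y Ts (k ∈ S) t' d, (1 / (d : ℝ))) +
          B * (G * (Ts : ℝ) ^ 2) := by ring
      _ ≤ A * (if k ∈ S then Q / Y else Q) + B * (G * (Ts : ℝ) ^ 2) := by
          have := mul_le_mul_of_nonneg_left hwt hA0
          linarith
      _ = _ := by
          rw [Finset.prod_range_succ, hAd, hBd, pow_succ]
          ring

/-- a bad run gives a continuation -/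
theorem run_BB {G Y T0 Ts D r N : ℕ} {S : Finset ℕ} {n t d : ℕ → ℕ} (hT0 : 1 ≤ T0)
    (h1 : ∀ i, i < r → n i ≤ G ∧ n i % 2 = 1 ∧ T0 ≤ t i ∧ t i ≤ Ts ∧ D ≤ d i ∧ d i ∣ t i ∧
      (d i : ℤ) ∣ 2 * (N : ℤ) - n i)
    (h2 : ∀ i, i + 1 < r → n i < n (i + 1) ∧ t i + 2 * d i ≤ t (i + 1) ∧
      t (i + 1) ≤ t i + 2 * d i + 2 * G * d (i + 1))
    (hS : ∀ i k, i + k + 2 = r → k ∈ S → Y * (t (i + 1) - (t i + 2 * d i)) < d (i + 1)) :
    ∀ (k i : ℕ) (c : List (ℕ × ℕ)), i + k + 1 = r → (∀ p ∈ c, p.1 ≤ n i) →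
      (∀ p ∈ c, (p.2 : ℤ) ∣ 2 * (N : ℤ) - p.1) → BB G Y Ts D S N k c (t i + 2 * d i) := by
  intro k
  induction k with
  | zero => intro i c _ _ h; exact h
  | succ k ih =>
    intro i c hi hc1 hc2
    obtain ⟨a1, a2, a3, a4, a5, a6, a7⟩ := h1 (i + 1) (by omega)
    obtain ⟨b1, b2, b3⟩ := h2 i (by omega)
    refine ⟨n (i + 1), ?_, d (i + 1), ?_, t (i + 1), ?_, ?_⟩
    · rw [ns, Finset.mem_filter, Finset.mem_Icc]
      exact ⟨⟨by omega, a1⟩, a2, fun p hp => lt_of_le_of_lt (hc1 p hp) b1⟩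
    · rw [Finset.mem_Icc]
      exact ⟨a5, (Nat.le_of_dvd (by omega) a6).trans a4⟩
    · unfold F
      split_ifs with hk
      · rw [Finset.mem_filter, Finset.mem_Icc]
        exact ⟨⟨by omega, a4⟩, a6, b2, hS i k (by omega) hk⟩
      · rw [Finset.mem_filter, Finset.mem_Icc]
        exact ⟨⟨by omega, a4⟩, a6, b2, b3⟩
    · refine ih (i + 1) _ (by omega) ?_ ?_
      · intro p hp
        rcases List.mem_cons.1 hp with rfl | hp
        · exact le_rfl
        · exact (hc1 p hp).trans b1.le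
      · intro p hp
        rcases List.mem_cons.1 hp with rfl | hp
        · exact a7
        · exact hc2 p hp

open Classical in
theorem t_CNT (hC : S_CRT) (hB : S_WB) (hA : S_WA) : S_CNT := by
  intro G Y T0 Ts D b X hG hY hT0 hTs hD hb hTY
  have hG' : (1 : ℝ) ≤ G := by exact_mod_cast hG
  have hY' : (2 : ℝ) ≤ Y := by exact_mod_cast hY
  have hTs' : (1 : ℝ) ≤ Ts := by exact_mod_cast hTs
  have hlog : 0 ≤ Real.log Ts := Real.log_nonneg hTs'
  set Q : ℝ := 3 * (G : ℝ) ^ 2 * (1 + Real.log Ts) with hQ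
  have hQ1 : 1 ≤ Q := by
    rw [hQ]
    nlinarith [one_le_pow₀ (n := 2) hG']
  have hQ0 : 0 < Q := by linarith
  set PP : Finset (Finset ℕ) := ((range (2 * b - 1)).powerset).filter (fun S => b ≤ S.card) with hPP
  have hsub : (Icc 1 X).filter (fun N : ℕ => BadRun G Y T0 Ts D (2 * b) N) ⊆
      PP.biUnion fun S => (ns G []).biUnion fun n0 => (Icc D Ts).biUnion fun d0 =>
        (Icc T0 Ts).biUnion fun t0 => (Icc 1 X).filter
          (fun N : ℕ => BB G Y Ts D S N (2 * b - 1) [(n0, d0)] (t0 + 2 * d0)) := by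
    intro N hN
    obtain ⟨hN1, n, t, d, h1, h2, h3⟩ := Finset.mem_filter.1 hN
    set S : Finset ℕ := (range (2 * b - 1)).filter (fun k =>
      Y * (t (2 * b - 1 - 1 - k + 1) - (t (2 * b - 1 - 1 - k) + 2 * d (2 * b - 1 - 1 - k))) <
        d (2 * b - 1 - 1 - k + 1)) with hS
    have hSc : b ≤ S.card := by
      have e1 : S.card = ((range (2 * b - 1)).filter
          (fun i => Y * (t (i + 1) - (t i + 2 * d i)) < d (i + 1))).card := by
        rw [hS, Finset.card_filter, Finset.card_filter]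
        exact Finset.sum_range_reflect (fun i => if Y * (t (i + 1) - (t i + 2 * d i)) < d (i + 1)
          then 1 else 0) (2 * b - 1)
      have e2 : 2 * b ≤ 2 * ((range (2 * b - 1)).filter
          (fun i => Y * (t (i + 1) - (t i + 2 * d i)) < d (i + 1))).card := by
        convert h3
      omega
    rw [Finset.mem_biUnion]
    refine ⟨S, Finset.mem_filter.2 ⟨Finset.mem_powerset.2 (Finset.filter_subset _ _), hSc⟩, ?_⟩
    obtain ⟨a1, a2, a3, a4, a5, a6, a7⟩ := h1 0 (by omega)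
    rw [Finset.mem_biUnion]
    refine ⟨n 0, ?_, ?_⟩
    · rw [ns, Finset.mem_filter, Finset.mem_Icc]
      exact ⟨⟨by omega, a1⟩, a2, by simp⟩
    rw [Finset.mem_biUnion]
    refine ⟨d 0, ?_, ?_⟩
    · rw [Finset.mem_Icc]
      exact ⟨a5, (Nat.le_of_dvd (by omega) a6).trans a4⟩
    rw [Finset.mem_biUnion]
    refine ⟨t 0, Finset.mem_Icc.2 ⟨a3, a4⟩, Finset.mem_filter.2 ⟨hN1, ?_⟩⟩
    refine run_BB hT0 h1 h2 ?_ (2 * b - 1) 0 [(n 0, d 0)] (by omega) (by simp) ?_
    · intro i k hik hk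
      have := (Finset.mem_filter.1 hk).2
      have e : 2 * b - 1 - 1 - k = i := by omega
      rw [e] at this
      exact this
    · intro p hp
      rw [List.mem_singleton] at hp
      subst hp
      exact a7
  set Z : ℝ := (X : ℝ) * (G : ℝ) ^ ((2 * b) ^ 2) * Q ^ (2 * b) / (Y : ℝ) ^ b +
    (G * (Ts : ℝ) ^ 2) ^ (2 * b - 1) with hZ
  have hZ0 : 0 ≤ Z := by positivity
  have hone : ∀ S ∈ PP, ∀ n0 ∈ ns G [], ∀ d0 ∈ Icc D Ts, ∀ t0 ∈ Icc T0 Ts,
      ((((Icc 1 X).filter (fun N : ℕ => BB G Y Ts D S N (2 * b - 1) [(n0, d0)]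
        (t0 + 2 * d0))).card : ℕ) : ℝ) ≤ Z := by
    intro S hS n0 hn0 d0 hd0 t0 ht0
    rw [hPP, Finset.mem_filter, Finset.mem_powerset] at hS
    rw [ns, Finset.mem_filter, Finset.mem_Icc] at hn0
    rw [Finset.mem_Icc] at hd0 ht0
    have hd00 : 0 < d0 := by omega
    have h1 := claim hC hB hA G Y T0 Ts D X (2 * b) S hG hY hT0 hTs hD hTY (2 * b - 1) [(n0, d0)]
      (t0 + 2 * d0) (List.pairwise_singleton _ _) (by
        intro p hp
        rw [List.mem_singleton] at hp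
        subst hp
        exact ⟨hn0.1.2, hn0.2.1, hd00⟩) (by simp only [List.length_singleton]; omega) (by omega)
    refine h1.trans ?_
    rw [hZ]
    have h2 : ∏ i ∈ range (2 * b - 1), (if i ∈ S then 3 * (G : ℝ) ^ 2 * (1 + Real.log Ts) / Y else
        3 * (G : ℝ) ^ 2 * (1 + Real.log Ts)) ≤ Q ^ (2 * b) / (Y : ℝ) ^ b := by
      have e1 : ∏ i ∈ range (2 * b - 1), (if i ∈ S then 3 * (G : ℝ) ^ 2 * (1 + Real.log Ts) / Y else
          3 * (G : ℝ) ^ 2 * (1 + Real.log Ts)) =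
          ∏ i ∈ range (2 * b - 1), (Q * (if i ∈ S then (1 / (Y : ℝ)) else 1)) := by
        refine Finset.prod_congr rfl fun i _ => ?_
        split_ifs
        · rw [← hQ]; ring
        · rw [← hQ]; ring
      have e2 : ∏ i ∈ range (2 * b - 1), (if i ∈ S then (1 / (Y : ℝ)) else 1) =
          (1 / (Y : ℝ)) ^ S.card := by
        rw [Finset.prod_ite_mem, Finset.inter_eq_right.2 hS.1, Finset.prod_const]
      rw [e1, Finset.prod_mul_distrib, Finset.prod_const, Finset.card_range, e2]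
      have e3 : Q ^ (2 * b - 1) ≤ Q ^ (2 * b) := pow_le_pow_right₀ hQ1 (by omega)
      have e4 : (1 / (Y : ℝ)) ^ S.card ≤ (1 / (Y : ℝ)) ^ b :=
        pow_le_pow_of_le_one (by positivity) (by rw [div_le_one (by linarith)]; linarith) hS.2
      calc Q ^ (2 * b - 1) * (1 / (Y : ℝ)) ^ S.card ≤ Q ^ (2 * b) * (1 / (Y : ℝ)) ^ b :=
            mul_le_mul e3 e4 (by positivity) (by positivity)
        _ = _ := by rw [one_div, inv_pow, div_eq_mul_inv]
    have h3 : (X : ℝ) * (G : ℝ) ^ ((2 * b) ^ 2) /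
        ((([(n0, d0)] : List (ℕ × ℕ)).map Prod.snd).prod : ℕ) ≤ (X : ℝ) * (G : ℝ) ^ ((2 * b) ^ 2) := by
      apply div_le_self (by positivity)
      simp only [List.map_cons, List.map_nil, List.prod_cons, List.prod_nil, mul_one]
      exact_mod_cast hd00
    have h4 := mul_le_mul h3 h2 (Finset.prod_nonneg fun i _ => by split_ifs <;> positivity)
      (by positivity)
    have h5 : (X : ℝ) * (G : ℝ) ^ ((2 * b) ^ 2) * (Q ^ (2 * b) / (Y : ℝ) ^ b) =
        (X : ℝ) * (G : ℝ) ^ ((2 * b) ^ 2) * Q ^ (2 * b) / (Y : ℝ) ^ b := by ring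
    linarith
  have hPPc : (PP.card : ℝ) ≤ 4 ^ b := by
    have h1 : PP.card ≤ 2 ^ (2 * b - 1) := by
      refine (Finset.card_filter_le _ _).trans ?_
      rw [Finset.card_powerset, Finset.card_range]
    have h2 : 2 ^ (2 * b - 1) ≤ 4 ^ b := by
      calc 2 ^ (2 * b - 1) ≤ 2 ^ (2 * b) := Nat.pow_le_pow_right (by norm_num) (by omega)
        _ = 4 ^ b := by rw [pow_mul]; norm_num
    exact_mod_cast h1.trans h2
  have hnc : ((ns G []).card : ℝ) ≤ G := by exact_mod_cast ns_card G []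
  have hdc : ((Icc D Ts).card : ℝ) ≤ Ts := by
    have : (Icc D Ts).card ≤ Ts := by rw [Nat.card_Icc]; omega
    exact_mod_cast this
  have htc : ((Icc T0 Ts).card : ℝ) ≤ Ts := by
    have : (Icc T0 Ts).card ≤ Ts := by rw [Nat.card_Icc]; omega
    exact_mod_cast this
  have hmain : ((((Icc 1 X).filter (fun N : ℕ => BadRun G Y T0 Ts D (2 * b) N)).card : ℕ) : ℝ) ≤
      4 ^ b * ((G : ℝ) * ((Ts : ℝ) * ((Ts : ℝ) * Z))) := by
    calc ((((Icc 1 X).filter (fun N : ℕ => BadRun G Y T0 Ts D (2 * b) N)).card : ℕ) : ℝ)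
        ≤ ((PP.biUnion fun S => (ns G []).biUnion fun n0 => (Icc D Ts).biUnion fun d0 =>
          (Icc T0 Ts).biUnion fun t0 => (Icc 1 X).filter
          (fun N : ℕ => BB G Y Ts D S N (2 * b - 1) [(n0, d0)] (t0 + 2 * d0))).card : ℝ) := by
          exact_mod_cast Finset.card_le_card hsub
      _ ≤ ∑ S ∈ PP, (((ns G []).biUnion fun n0 => (Icc D Ts).biUnion fun d0 =>
          (Icc T0 Ts).biUnion fun t0 => (Icc 1 X).filter
          (fun N : ℕ => BB G Y Ts D S N (2 * b - 1) [(n0, d0)] (t0 + 2 * d0))).card : ℝ) := by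
          exact_mod_cast Finset.card_biUnion_le
      _ ≤ ∑ S ∈ PP, ((G : ℝ) * ((Ts : ℝ) * ((Ts : ℝ) * Z))) := by
          refine Finset.sum_le_sum fun S hS => ?_
          calc (((ns G []).biUnion fun n0 => (Icc D Ts).biUnion fun d0 =>
              (Icc T0 Ts).biUnion fun t0 => (Icc 1 X).filter
              (fun N : ℕ => BB G Y Ts D S N (2 * b - 1) [(n0, d0)] (t0 + 2 * d0))).card : ℝ)
              ≤ ∑ n0 ∈ ns G [], (((Icc D Ts).biUnion fun d0 =>
              (Icc T0 Ts).biUnion fun t0 => (Icc 1 X).filter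
              (fun N : ℕ => BB G Y Ts D S N (2 * b - 1) [(n0, d0)] (t0 + 2 * d0))).card : ℝ) := by
                exact_mod_cast Finset.card_biUnion_le
            _ ≤ ∑ n0 ∈ ns G [], ((Ts : ℝ) * ((Ts : ℝ) * Z)) := by
                refine Finset.sum_le_sum fun n0 hn0 => ?_
                calc (((Icc D Ts).biUnion fun d0 =>
                    (Icc T0 Ts).biUnion fun t0 => (Icc 1 X).filter
                    (fun N : ℕ => BB G Y Ts D S N (2 * b - 1) [(n0, d0)] (t0 + 2 * d0))).card : ℝ)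
                    ≤ ∑ d0 ∈ Icc D Ts, (((Icc T0 Ts).biUnion fun t0 => (Icc 1 X).filter
                    (fun N : ℕ => BB G Y Ts D S N (2 * b - 1) [(n0, d0)]
                      (t0 + 2 * d0))).card : ℝ) := by
                      exact_mod_cast Finset.card_biUnion_le
                  _ ≤ ∑ d0 ∈ Icc D Ts, ((Ts : ℝ) * Z) := by
                      refine Finset.sum_le_sum fun d0 hd0 => ?_
                      calc (((Icc T0 Ts).biUnion fun t0 => (Icc 1 X).filter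
                          (fun N : ℕ => BB G Y Ts D S N (2 * b - 1) [(n0, d0)]
                            (t0 + 2 * d0))).card : ℝ)
                          ≤ ∑ t0 ∈ Icc T0 Ts, ((((Icc 1 X).filter
                          (fun N : ℕ => BB G Y Ts D S N (2 * b - 1) [(n0, d0)]
                            (t0 + 2 * d0))).card : ℕ) : ℝ) := by
                            exact_mod_cast Finset.card_biUnion_le
                        _ ≤ ∑ t0 ∈ Icc T0 Ts, Z := Finset.sum_le_sum fun t0 ht0 =>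
                            hone S hS n0 hn0 d0 hd0 t0 ht0
                        _ = ((Icc T0 Ts).card : ℝ) * Z := by rw [Finset.sum_const, nsmul_eq_mul]
                        _ ≤ (Ts : ℝ) * Z := mul_le_mul_of_nonneg_right htc hZ0
                  _ = ((Icc D Ts).card : ℝ) * ((Ts : ℝ) * Z) := by
                      rw [Finset.sum_const, nsmul_eq_mul]
                  _ ≤ (Ts : ℝ) * ((Ts : ℝ) * Z) := mul_le_mul_of_nonneg_right hdc (by positivity)
            _ = ((ns G []).card : ℝ) * ((Ts : ℝ) * ((Ts : ℝ) * Z)) := by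
                rw [Finset.sum_const, nsmul_eq_mul]
            _ ≤ (G : ℝ) * ((Ts : ℝ) * ((Ts : ℝ) * Z)) :=
                mul_le_mul_of_nonneg_right hnc (by positivity)
      _ = (PP.card : ℝ) * ((G : ℝ) * ((Ts : ℝ) * ((Ts : ℝ) * Z))) := by
          rw [Finset.sum_const, nsmul_eq_mul]
      _ ≤ 4 ^ b * ((G : ℝ) * ((Ts : ℝ) * ((Ts : ℝ) * Z))) :=
          mul_le_mul_of_nonneg_right hPPc (by positivity)
  refine hmain.trans (le_of_eq ?_)
  have hp : (G * (Ts : ℝ) ^ 2) ^ (2 * b) = (G * (Ts : ℝ) ^ 2) ^ (2 * b - 1) * (G * (Ts : ℝ) ^ 2) := by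
    rw [← pow_succ]
    congr 1
    omega
  rw [hp, hZ]
  ring

end Pool.Agent.N333.GR.Cnt
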