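import Pool.Agent.N333.GR.Stm

/-!
# Project GR (helper333), part DBL: counting gaps

By helper835.
-/

set_option autoImplicit false

namespace Pool.Agent.N333.GR.Dbl

open Finset

open Classical in
theorem t_DBL : Pool.Agent.N333.GR.S_DBL := by
  intro J J' f r hr hrc hJ hf hinc hgap H
  set c := J.card with hc
  have hmono : ∀ i i', i ≤ i' → i' < c → f i ≤ f i' := by
    intro i i' h
    induction h with
    | refl => exact fun _ => le_rfl
    | @step m h ih => exact fun h1 => (ih (by omega)).trans (hinc m (by omega)).le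
  set Good : Finset ℕ := (range (c - 1)).filter (fun i => ∃ x ∈ J', f i < x ∧ x < f (i + 1))
    with hGood
  have hex : ∀ i, ∃ x, i ∈ Good → x ∈ J' ∧ f i < x ∧ x < f (i + 1) := by
    intro i
    by_cases h : i ∈ Good
    · obtain ⟨x, h1, h2⟩ := (mem_filter.1 h).2
      exact ⟨x, fun _ => ⟨h1, h2⟩⟩
    · exact ⟨0, fun h1 => absurd h1 h⟩
  choose x hx using hex
  have hlt : ∀ i ∈ Good, i + 1 < c := by
    intro i hi
    have := mem_range.1 (mem_filter.1 hi).1
    omega
  have hxm : ∀ i ∈ Good, ∀ i' ∈ Good, i < i' → x i < x i' := by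
    intro i hi i' hi' h
    have h1 := (hx i hi).2.2
    have h2 := (hx i' hi').2.1
    have h3 := hmono (i + 1) i' h (by have := hlt i' hi'; omega)
    omega
  have hinj : Set.InjOn x (Good : Set ℕ) := by
    intro i hi i' hi' h
    rcases lt_trichotomy i i' with h1 | h1 | h1
    · have := hxm i hi i' hi' h1
      omega
    · exact h1
    · have := hxm i' hi' i hi h1
      omega
  have hdis : Disjoint J (Good.image x) := by
    rw [Finset.disjoint_left]
    intro y hy hy2
    obtain ⟨i, hi, rfl⟩ := mem_image.1 hy2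
    exact hgap i (x i) (hlt i hi) (hx i hi).2.1 (hx i hi).2.2 hy
  have hcard : c + Good.card ≤ J'.card := by
    rw [← Finset.card_image_of_injOn hinj, hc, ← Finset.card_union_of_disjoint hdis]
    refine Finset.card_le_card (Finset.union_subset hJ ?_)
    intro y hy
    obtain ⟨i, hi, rfl⟩ := mem_image.1 hy
    exact (hx i hi).1
  have hr0 : 0 < r := by omega
  have hfib : ∀ q ∈ range (c / r), r - 1 ≤ 2 * (Good.filter (fun i => i / r = q)).card := by
    intro q hq
    have hq1 : (q + 1) * r ≤ c :=
      (Nat.mul_le_mul_right r (mem_range.1 hq)).trans (Nat.div_mul_le_self c r)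
    have hq2 : q * r + r ≤ c := by
      rw [Nat.add_mul, Nat.one_mul] at hq1
      exact hq1
    refine (H (q * r) hq2).trans (Nat.mul_le_mul_left 2 ?_)
    refine Finset.card_le_card_of_injOn (fun i => q * r + i) ?_ ?_
    · intro i hi
      have h1 := Finset.mem_filter.1 (Finset.mem_coe.1 hi)
      have h2 := mem_range.1 h1.1
      refine Finset.mem_coe.2 (mem_filter.2 ⟨mem_filter.2 ⟨mem_range.2 ?_, h1.2⟩, ?_⟩)
      · show q * r + i < c - 1
        omega
      · show (q * r + i) / r = q
        rw [Nat.add_comm, Nat.add_mul_div_right _ _ hr0, Nat.div_eq_of_lt (by omega), Nat.zero_add]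
    · intro i _ i' _ h
      simp only at h
      omega
  have hsum : (c / r) * (r - 1) ≤ 2 * Good.card := by
    have h1 : Good.card = ∑ q ∈ range (c + 1), (Good.filter (fun i => i / r = q)).card := by
      refine Finset.card_eq_sum_card_fiberwise ?_
      intro i hi
      have h2 := hlt i hi
      have h3 := Nat.div_le_self i r
      refine Finset.mem_coe.2 (mem_range.2 ?_)
      show i / r < c + 1
      omega
    have h2 : ∑ q ∈ range (c / r), (Good.filter (fun i => i / r = q)).card ≤
        ∑ q ∈ range (c + 1), (Good.filter (fun i => i / r = q)).card := by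
      refine Finset.sum_le_sum_of_subset ?_
      intro q hq
      have := mem_range.1 hq
      have h3 := Nat.div_le_self c r
      exact mem_range.2 (by omega)
    calc (c / r) * (r - 1) = ∑ q ∈ range (c / r), (r - 1) := by simp
      _ ≤ ∑ q ∈ range (c / r), 2 * (Good.filter (fun i => i / r = q)).card :=
          Finset.sum_le_sum hfib
      _ = 2 * ∑ q ∈ range (c / r), (Good.filter (fun i => i / r = q)).card := by
          rw [Finset.mul_sum]
      _ ≤ 2 * Good.card := by rw [h1]; exact Nat.mul_le_mul_left 2 h2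
  obtain ⟨w, hw⟩ : ∃ w, w = c / r := ⟨_, rfl⟩
  rw [← hw] at hsum
  have hw1 : 1 ≤ w := by
    rw [hw]
    exact (Nat.one_le_div_iff hr0).2 hrc
  have hcw : c < (w + 1) * r := by
    have := Nat.lt_mul_div_succ c hr0
    rw [← hw] at this
    rw [Nat.mul_comm]
    exact this
  obtain ⟨s, rfl⟩ : ∃ s, r = s + 1 := ⟨r - 1, by omega⟩
  have h5 : s + 1 - 1 = s := by omega
  rw [h5] at hsum
  have h6 : c ≤ 8 * Good.card := by
    nlinarith
  omega

end Pool.Agent.N333.GR.Dbl
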