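import Pool.Agent.N333.GR.Par

/-!
# Almost all `N` have a slow descent
-/

set_option autoImplicit false

namespace Pool.Agent.N333.GR.Fin

open Finset Filter Topology Pool.Agent.N333.GR.Sub Pool.Agent.N333.GR.Par

open Classical in
theorem main1 (hREC : S_REC) (hBIG : S_BIG) (hRUN : S_RUN) (hCNT : S_CNT) (h X : ℕ)
    (hh : 40 ≤ h) :
    (((Icc 3 X).filter (fun N : ℕ => ¬ (2 ^ h < g N ∧ ∀ n, 1 ≤ n → n ≤ 2 ^ h →
      (N : ℤ) - 2 ^ (8 * mm h * uu h) ≤ a N n))).card : ℝ) ≤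
      2 ^ (8 * mm h * uu h) + 6 * h * ((X : ℝ) / 2 ^ (100 * mm h ^ 2 * h) +
        2 ^ (400000000 * h ^ 4)) := by
  have hsub : (Icc 3 X).filter (fun N : ℕ => ¬ (2 ^ h < g N ∧ ∀ n, 1 ≤ n → n ≤ 2 ^ h →
      (N : ℤ) - 2 ^ (8 * mm h * uu h) ≤ a N n)) ⊆ range (2 ^ (8 * mm h * uu h)) ∪
      (range (6 * h)).biUnion (fun k => (Icc 1 X).filter (fun N : ℕ =>
        BadRun (2 ^ h) (2 ^ (yy h)) (2 ^ (6 * mm h * uu h)) (2 ^ (8 * mm h * uu h))
          (2 ^ ((6 * mm h - 2 - k) * uu h)) (64 * mm h) N)) := by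
    intro N hN
    rw [mem_filter, mem_Icc] at hN
    rw [mem_union, mem_range]
    by_cases h1 : N < 2 ^ (8 * mm h * uu h)
    · exact Or.inl h1
    · right
      push Not at h1
      obtain ⟨k, hk, hk2⟩ := exc_sub hREC hBIG hRUN h N (by omega) hN.1.1 h1 hN.2
      rw [mem_biUnion]
      refine ⟨k, mem_range.2 hk, ?_⟩
      rw [mem_filter, mem_Icc]
      exact ⟨⟨by omega, hN.1.2⟩, hk2⟩
  have h1 := (card_le_card hsub).trans (card_union_le _ _)
  rw [card_range] at h1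
  have h2 := card_biUnion_le (s := range (6 * h)) (t := fun k => (Icc 1 X).filter (fun N : ℕ =>
        BadRun (2 ^ h) (2 ^ (yy h)) (2 ^ (6 * mm h * uu h)) (2 ^ (8 * mm h * uu h))
          (2 ^ ((6 * mm h - 2 - k) * uu h)) (64 * mm h) N))
  have h3 : (((∑ k ∈ range (6 * h), ((Icc 1 X).filter (fun N : ℕ =>
        BadRun (2 ^ h) (2 ^ (yy h)) (2 ^ (6 * mm h * uu h)) (2 ^ (8 * mm h * uu h))
          (2 ^ ((6 * mm h - 2 - k) * uu h)) (64 * mm h) N)).card : ℕ)) : ℝ) ≤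
      6 * h * ((X : ℝ) / 2 ^ (100 * mm h ^ 2 * h) + 2 ^ (400000000 * h ^ 4)) := by
    rw [Nat.cast_sum]
    calc _ ≤ ∑ k ∈ range (6 * h), ((X : ℝ) / 2 ^ (100 * mm h ^ 2 * h) +
          2 ^ (400000000 * h ^ 4)) := by
          apply sum_le_sum
          intro k hk
          exact cnt_bound hCNT h X k hh (mem_range.1 hk)
      _ = 6 * h * ((X : ℝ) / 2 ^ (100 * mm h ^ 2 * h) + 2 ^ (400000000 * h ^ 4)) := by
          rw [sum_const, card_range, nsmul_eq_mul]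
          push_cast
          ring
  have h4 := h1.trans (Nat.add_le_add_left h2 _)
  have h5 : (((Icc 3 X).filter (fun N : ℕ => ¬ (2 ^ h < g N ∧ ∀ n, 1 ≤ n → n ≤ 2 ^ h →
      (N : ℤ) - 2 ^ (8 * mm h * uu h) ≤ a N n))).card : ℝ) ≤
      ((2 ^ (8 * mm h * uu h) + ∑ k ∈ range (6 * h), ((Icc 1 X).filter (fun N : ℕ =>
        BadRun (2 ^ h) (2 ^ (yy h)) (2 ^ (6 * mm h * uu h)) (2 ^ (8 * mm h * uu h))
          (2 ^ ((6 * mm h - 2 - k) * uu h)) (64 * mm h) N)).card : ℕ) : ℝ) := by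
    exact_mod_cast h4
  refine h5.trans ?_
  rw [Nat.cast_add]
  push_cast at h3 ⊢
  linarith

theorem six_le (h : ℕ) (hh : 40 ≤ h) : 6 * h ≤ 2 ^ h := by
  have := log_bound h hh
  have h1 : mm h = 6 * h + 4 := rfl
  have h2 : 1 ≤ uu h := by unfold uu; omega
  have h3 : 6 * h ≤ 3 * (1 + 8 * mm h * uu h) := by
    have : mm h ≤ 8 * mm h * uu h := by nlinarith
    omega
  exact h3.trans this

open Classical in
theorem main2 (hREC : S_REC) (hBIG : S_BIG) (hRUN : S_RUN) (hCNT : S_CNT) (h X : ℕ)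
    (hh : 40 ≤ h) (hX : 2 ^ (1000000000 * h ^ 4) ≤ X) :
    (((Icc 3 X).filter (fun N : ℕ => ¬ (2 ^ h < g N ∧ ∀ n, 1 ≤ n → n ≤ 2 ^ h →
      (N : ℤ) - 2 ^ (1000000000 * h ^ 3) ≤ a N n))).card : ℝ) ≤ (X : ℝ) / 2 ^ (h ^ 3) := by
  have hu := uu_le h (by omega)
  have hm := mm_le h (by omega)
  have hm2 := mm_ge h
  have hexp : 8 * mm h * uu h ≤ 241600 * h ^ 3 := by
    calc 8 * mm h * uu h ≤ 8 * (10 * h) * (3020 * h ^ 2) := by gcongr
      _ = 241600 * h ^ 3 := by ring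
  have h34 : 40 * h ^ 3 ≤ h ^ 4 := by
    rw [show h ^ 4 = h * h ^ 3 by ring]
    exact Nat.mul_le_mul_right _ hh
  have h13 : h ≤ h ^ 3 := by
    calc h = h ^ 1 := (pow_one h).symm
      _ ≤ h ^ 3 := Nat.pow_le_pow_right (by omega) (by norm_num)
  have h1 := main1 hREC hBIG hRUN hCNT h X hh
  have hle : (((Icc 3 X).filter (fun N : ℕ => ¬ (2 ^ h < g N ∧ ∀ n, 1 ≤ n → n ≤ 2 ^ h →
      (N : ℤ) - 2 ^ (1000000000 * h ^ 3) ≤ a N n))).card : ℝ) ≤
      (((Icc 3 X).filter (fun N : ℕ => ¬ (2 ^ h < g N ∧ ∀ n, 1 ≤ n → n ≤ 2 ^ h →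
      (N : ℤ) - 2 ^ (8 * mm h * uu h) ≤ a N n))).card : ℝ) := by
    refine Nat.cast_le.2 (card_le_card ?_)
    intro N hN
    rw [mem_filter] at hN ⊢
    refine ⟨hN.1, fun hcon => hN.2 ⟨hcon.1, fun n hn1 hn2 => le_trans ?_ (hcon.2 n hn1 hn2)⟩⟩
    have : (2 : ℤ) ^ (8 * mm h * uu h) ≤ 2 ^ (1000000000 * h ^ 3) :=
      pow_le_pow_right₀ (by norm_num) (by omega)
    linarith
  have hXR : (2 : ℝ) ^ (1000000000 * h ^ 4) ≤ X := by exact_mod_cast hX
  have hX0 : (0 : ℝ) ≤ X := Nat.cast_nonneg X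
  have t1 : (2 : ℝ) ^ (8 * mm h * uu h) ≤ (X : ℝ) / 2 ^ (h ^ 3 + 2) := by
    rw [le_div_iff₀ (by positivity), ← pow_add]
    exact (pow_le_pow_right₀ (by norm_num) (by omega)).trans hXR
  have h6 : (6 * h : ℝ) ≤ 2 ^ h := by exact_mod_cast six_le h hh
  have t2 : (6 * h : ℝ) * ((X : ℝ) / 2 ^ (100 * mm h ^ 2 * h)) ≤ (X : ℝ) / 2 ^ (h ^ 3 + 2) := by
    calc (6 * h : ℝ) * ((X : ℝ) / 2 ^ (100 * mm h ^ 2 * h)) ≤
          2 ^ h * ((X : ℝ) / 2 ^ (100 * mm h ^ 2 * h)) := by gcongr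
      _ ≤ (X : ℝ) / 2 ^ (h ^ 3 + 2) := by
          rw [← mul_div_assoc, div_le_div_iff₀ (by positivity) (by positivity)]
          rw [show (2 : ℝ) ^ h * X * 2 ^ (h ^ 3 + 2) = X * (2 ^ h * 2 ^ (h ^ 3 + 2)) by ring,
            ← pow_add]
          apply mul_le_mul_of_nonneg_left _ hX0
          apply pow_le_pow_right₀ (by norm_num)
          have : 100 * (6 * h) ^ 2 * h ≤ 100 * mm h ^ 2 * h := by gcongr
          have e : 100 * (6 * h) ^ 2 * h = 3600 * h ^ 3 := by ring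
          rw [e] at this
          have h30 : 1 ≤ h ^ 3 := Nat.one_le_pow _ _ (by omega)
          omega
  have t3 : (6 * h : ℝ) * 2 ^ (400000000 * h ^ 4) ≤ (X : ℝ) / 2 ^ (h ^ 3 + 2) := by
    calc (6 * h : ℝ) * 2 ^ (400000000 * h ^ 4) ≤ 2 ^ h * 2 ^ (400000000 * h ^ 4) := by gcongr
      _ ≤ (X : ℝ) / 2 ^ (h ^ 3 + 2) := by
          rw [le_div_iff₀ (by positivity), ← pow_add, ← pow_add]
          refine (pow_le_pow_right₀ (by norm_num) ?_).trans hXR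
          omega
  have t4 : (X : ℝ) / 2 ^ (h ^ 3 + 2) = (X : ℝ) / 2 ^ (h ^ 3) / 4 := by
    rw [pow_add, div_div]
    norm_num
  have t5 : 0 ≤ (X : ℝ) / 2 ^ (h ^ 3) := by positivity
  rw [t4] at t1 t2 t3
  calc _ ≤ _ := hle
    _ ≤ _ := h1
    _ ≤ (X : ℝ) / 2 ^ (h ^ 3) := by
      rw [mul_add]
      linarith

open Classical in
/-- the form with logarithms -/
theorem main3 (C : ℕ) (hC : 40 ≤ C)
    (hm : ∀ h : ℕ, 40 ≤ h → ∀ X : ℕ, 2 ^ (C * h ^ 4) ≤ X →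
      (((Icc 3 X).filter (fun N : ℕ => ¬ (2 ^ h < g N ∧ ∀ n, 1 ≤ n → n ≤ 2 ^ h →
      (N : ℤ) - 2 ^ (C * h ^ 3) ≤ a N n))).card : ℝ) ≤ (X : ℝ) / 2 ^ (h ^ 3)) :
    ∃ c : ℝ, 0 < c ∧ ∀ᶠ X : ℕ in atTop,
      (((Icc 3 X).filter (fun N : ℕ =>
        (g N : ℝ) < Real.exp (c * (Real.log N) ^ (1 / 4 : ℝ)))).card : ℝ) ≤
        (X : ℝ) * Real.exp (-(c * (Real.log X) ^ (3 / 4 : ℝ))) := by
  have hCR : (40 : ℝ) ≤ C := by exact_mod_cast hC
  have hC0 : (0 : ℝ) < C := by linarith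
  refine ⟨1 / (16 * C), by positivity, ?_⟩
  have hlog : Tendsto (fun X : ℕ => Real.log X) atTop atTop :=
    Real.tendsto_log_atTop.comp tendsto_natCast_atTop_atTop
  have ht : Tendsto (fun X : ℕ => (Real.log X / C) ^ (1 / 4 : ℝ)) atTop atTop :=
    (tendsto_rpow_atTop (by norm_num)).comp (hlog.atTop_div_const hC0)
  filter_upwards [ht.eventually_ge_atTop 41, hlog.eventually_ge_atTop 1,
    eventually_ge_atTop 3] with X hX hX1 hX3
  set L := Real.log X with hL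
  set z := (L / C) ^ (1 / 4 : ℝ) with hz
  set h := ⌊z⌋₊ with hh
  have hz0 : 0 ≤ z := by linarith
  have hLC : 0 ≤ L / C := by positivity
  have hz4 : z ^ 4 = L / C := by
    rw [hz, ← Real.rpow_natCast, ← Real.rpow_mul hLC]
    norm_num
  have hhz : (h : ℝ) ≤ z := Nat.floor_le hz0
  have hhz2 : z - 1 < h := by
    have := Nat.lt_floor_add_one z
    linarith
  have hhz3 : z / 2 ≤ h := by linarith
  have hh40 : 40 ≤ h := Nat.le_floor (by push_cast; linarith)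
  have hXpos : (0 : ℝ) < X := by
    have : 0 < X := by omega
    exact_mod_cast this
  have hl2 : Real.log 2 ≤ 1 := by
    have := Real.log_two_lt_d9
    linarith
  have hl2' : 1 / 2 ≤ Real.log 2 := by
    have := Real.log_two_gt_d9
    linarith
  have hXle : 2 ^ (C * h ^ 4) ≤ X := by
    have h1 : ((C * h ^ 4 : ℕ) : ℝ) * Real.log 2 ≤ L := by
      push_cast
      have h2 : (h : ℝ) ^ 4 ≤ L / C := by
        rw [← hz4]
        gcongr
      have h3 : (C : ℝ) * (h : ℝ) ^ 4 ≤ L := by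
        calc (C : ℝ) * (h : ℝ) ^ 4 ≤ C * (L / C) := by gcongr
          _ = L := by field_simp
      calc (C : ℝ) * (h : ℝ) ^ 4 * Real.log 2 ≤ C * (h : ℝ) ^ 4 * 1 := by gcongr
        _ ≤ L := by linarith
    have h2 : ((2 ^ (C * h ^ 4) : ℕ) : ℝ) ≤ X := by
      rw [← Real.exp_log hXpos, ← hL]
      push_cast
      rw [← Real.exp_log (show (0 : ℝ) < 2 by norm_num), ← Real.exp_nat_mul]
      exact Real.exp_le_exp.2 h1
    exact_mod_cast h2
  have hmain := hm h hh40 X hXle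
  have hC1 : 1 / (C : ℝ) ≤ (1 / (C : ℝ)) ^ (1 / 4 : ℝ) := by
    have h1 : 1 / (C : ℝ) ≤ 1 := by
      rw [div_le_one hC0]
      linarith
    calc 1 / (C : ℝ) = (1 / (C : ℝ)) ^ (1 : ℝ) := (Real.rpow_one _).symm
      _ ≤ (1 / (C : ℝ)) ^ (1 / 4 : ℝ) :=
        Real.rpow_le_rpow_of_exponent_ge (by positivity) h1 (by norm_num)
  have hC3 : 1 / (C : ℝ) ≤ (1 / (C : ℝ)) ^ (3 / 4 : ℝ) := by
    have h1 : 1 / (C : ℝ) ≤ 1 := by
      rw [div_le_one hC0]
      linarith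
    calc 1 / (C : ℝ) = (1 / (C : ℝ)) ^ (1 : ℝ) := (Real.rpow_one _).symm
      _ ≤ (1 / (C : ℝ)) ^ (3 / 4 : ℝ) :=
        Real.rpow_le_rpow_of_exponent_ge (by positivity) h1 (by norm_num)
  have hL0 : 0 ≤ L := by linarith
  have hzL : 1 / (C : ℝ) * L ^ (1 / 4 : ℝ) ≤ z := by
    rw [hz, div_eq_mul_one_div L, Real.mul_rpow hL0 (by positivity), mul_comm]
    gcongr
  have hzL3 : 1 / (C : ℝ) * L ^ (3 / 4 : ℝ) ≤ z ^ 3 := by
    have : z ^ 3 = (L / C) ^ (3 / 4 : ℝ) := by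
      rw [hz, ← Real.rpow_natCast, ← Real.rpow_mul hLC]
      norm_num
    rw [this, div_eq_mul_one_div L, Real.mul_rpow hL0 (by positivity), mul_comm]
    gcongr
  calc _ ≤ (((Icc 3 X).filter (fun N : ℕ => ¬ (2 ^ h < g N ∧ ∀ n, 1 ≤ n → n ≤ 2 ^ h →
      (N : ℤ) - 2 ^ (C * h ^ 3) ≤ a N n))).card : ℝ) := by
        refine Nat.cast_le.2 (card_le_card ?_)
        intro N hN
        rw [mem_filter, mem_Icc] at hN ⊢
        refine ⟨hN.1, fun hcon => ?_⟩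
        have h1 : ((2 ^ h : ℕ) : ℝ) < g N := by exact_mod_cast hcon.1
        have h2 := hN.2
        have hN0 : (0 : ℝ) < N := by
          have : 0 < N := by omega
          exact_mod_cast this
        have h3 : Real.log N ≤ L := Real.log_le_log hN0 (by exact_mod_cast hN.1.2)
        have h4 : 0 ≤ Real.log N := Real.log_nonneg (by
          have : 1 ≤ N := by omega
          exact_mod_cast this)
        have h5 : Real.exp (1 / (16 * C) * (Real.log N) ^ (1 / 4 : ℝ)) ≤ ((2 ^ h : ℕ) : ℝ) := by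
          push_cast
          rw [← Real.exp_log (show (0 : ℝ) < 2 by norm_num), ← Real.exp_nat_mul]
          apply Real.exp_le_exp.2
          have h6 : (Real.log N) ^ (1 / 4 : ℝ) ≤ L ^ (1 / 4 : ℝ) :=
            Real.rpow_le_rpow h4 h3 (by norm_num)
          calc 1 / (16 * C) * (Real.log N) ^ (1 / 4 : ℝ) ≤ 1 / (16 * C) * L ^ (1 / 4 : ℝ) := by
                gcongr
            _ = 1 / 16 * (1 / (C : ℝ) * L ^ (1 / 4 : ℝ)) := by
                field_simp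
            _ ≤ 1 / 16 * z := by gcongr
            _ ≤ h * Real.log 2 := by nlinarith
        linarith
    _ ≤ (X : ℝ) / 2 ^ (h ^ 3) := hmain
    _ ≤ (X : ℝ) * Real.exp (-(1 / (16 * C) * L ^ (3 / 4 : ℝ))) := by
        rw [div_eq_mul_inv]
        apply mul_le_mul_of_nonneg_left _ hXpos.le
        rw [Real.exp_neg]
        apply inv_anti₀ (Real.exp_pos _)
        rw [← Real.exp_log (show (0 : ℝ) < 2 by norm_num), ← Real.exp_nat_mul]
        apply Real.exp_le_exp.2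
        push_cast
        have h7 : z ^ 3 / 8 ≤ (h : ℝ) ^ 3 := by
          calc z ^ 3 / 8 = (z / 2) ^ 3 := by ring
            _ ≤ (h : ℝ) ^ 3 := by gcongr
        calc 1 / (16 * C) * L ^ (3 / 4 : ℝ) = 1 / 16 * (1 / (C : ℝ) * L ^ (3 / 4 : ℝ)) := by
              field_simp
          _ ≤ 1 / 16 * z ^ 3 := by gcongr
          _ ≤ (h : ℝ) ^ 3 * Real.log 2 := by
              have h8 : 0 ≤ z ^ 3 := by positivity
              nlinarith

end Pool.Agent.N333.GR.Fin
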