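import Pool.Agent.N333.GR.Sub

/-!
# The count with explicit parameters
-/

set_option autoImplicit false

namespace Pool.Agent.N333.GR.Par

open Finset Pool.Agent.N333.GR.Sub

theorem mm_le (h : ℕ) (hh : 1 ≤ h) : mm h ≤ 10 * h := by unfold mm; omega

theorem mm_ge (h : ℕ) : 6 * h ≤ mm h := by unfold mm; omega

theorem uu_le (h : ℕ) (hh : 1 ≤ h) : uu h ≤ 3020 * h ^ 2 := by
  unfold uu yy
  have h1 := mm_le h hh
  have h2 : 300 * mm h * h ≤ 300 * (10 * h) * h := by gcongr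
  nlinarith

theorem log_bound (h : ℕ) (hh : 40 ≤ h) : 3 * (1 + 8 * mm h * uu h) ≤ 2 ^ h := by
  have h1 := mm_le h (by omega)
  have h2 := uu_le h (by omega)
  have h3 : 8 * mm h * uu h ≤ 8 * (10 * h) * (3020 * h ^ 2) := by gcongr
  have h4 : 3 * (1 + 8 * mm h * uu h) ≤ 800000 * h ^ 3 := by
    have e : 8 * (10 * h) * (3020 * h ^ 2) = 241600 * h ^ 3 := by ring
    rw [e] at h3
    have : 1 ≤ h ^ 3 := Nat.one_le_pow _ _ (by omega)
    omega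
  refine h4.trans ?_
  clear h1 h2 h3 h4
  induction h, hh using Nat.le_induction with
  | base => norm_num
  | succ n hn ih =>
    have : (n + 1) ^ 3 ≤ 2 * n ^ 3 := by
      have e : (n + 1) ^ 3 = n ^ 3 + 3 * n ^ 2 + 3 * n + 1 := by ring
      have e3 : n ^ 3 = n * n ^ 2 := by ring
      have e2 : n ^ 2 = n * n := by ring
      have : 40 * n ^ 2 ≤ n ^ 3 := by rw [e3]; exact Nat.mul_le_mul_right _ hn
      nlinarith
    calc 800000 * (n + 1) ^ 3 ≤ 800000 * (2 * n ^ 3) := by gcongr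
      _ = 2 * (800000 * n ^ 3) := by ring
      _ ≤ 2 * 2 ^ n := by gcongr
      _ = 2 ^ (n + 1) := by ring

theorem exp_main (h : ℕ) (hh : 1 ≤ h) :
    64 * mm h + h * (64 * mm h) ^ 2 + (h + 16 * mm h * uu h) + 192 * mm h * h +
      100 * mm h ^ 2 * h ≤ 32 * mm h * yy h := by
  have hu : uu h = 1 + h + yy h := rfl
  have hy : yy h = 300 * mm h * h := rfl
  rw [hu, hy]
  have hm : 10 ≤ mm h := by unfold mm; omega
  generalize mm h = m at hm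
  have h1 : 10 * (m * h) ≤ m ^ 2 * h := by
    have : m ^ 2 * h = m * (m * h) := by ring
    rw [this]
    exact Nat.mul_le_mul_right _ hm
  have h2 : 10 * m ≤ m ^ 2 * h := by
    have : 10 * m ≤ m * m := Nat.mul_le_mul_right _ hm
    calc 10 * m ≤ m * m := this
      _ = m ^ 2 * 1 := by ring
      _ ≤ m ^ 2 * h := by gcongr
  have h3 : h ≤ m ^ 2 * h := Nat.le_mul_of_pos_left _ (by positivity)
  have e : 64 * m + h * (64 * m) ^ 2 + (h + 16 * m * (1 + h + 300 * m * h)) + 192 * m * h +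
      100 * m ^ 2 * h = 80 * m + h + 208 * (m * h) + 8996 * (m ^ 2 * h) := by ring
  have e2 : 32 * m * (300 * m * h) = 9600 * (m ^ 2 * h) := by ring
  rw [e, e2]
  omega

theorem exp_tuples (h : ℕ) (hh : 1 ≤ h) :
    64 * mm h + (h + 16 * mm h * uu h) * (64 * mm h) ≤ 400000000 * h ^ 4 := by
  have h1 := mm_le h hh
  have h2 := uu_le h hh
  have h3 : (h + 16 * mm h * uu h) * (64 * mm h) ≤
      (h + 16 * (10 * h) * (3020 * h ^ 2)) * (64 * (10 * h)) := by gcongr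
  have h4 : 64 * mm h ≤ 64 * (10 * h) := by gcongr
  have e : (h + 16 * (10 * h) * (3020 * h ^ 2)) * (64 * (10 * h)) =
      640 * h ^ 2 + 309248000 * h ^ 4 := by ring
  rw [e] at h3
  have h5 : h ^ 2 ≤ h ^ 4 := Nat.pow_le_pow_right hh (by norm_num)
  have h6 : h ^ 1 ≤ h ^ 4 := Nat.pow_le_pow_right hh (by norm_num)
  rw [pow_one] at h6
  omega

open Classical in
theorem cnt_bound (hCNT : S_CNT) (h X k : ℕ) (hh : 40 ≤ h) (hk : k < 6 * h) :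
    (((Icc 1 X).filter (fun N : ℕ => BadRun (2 ^ h) (2 ^ (yy h)) (2 ^ (6 * mm h * uu h))
      (2 ^ (8 * mm h * uu h)) (2 ^ ((6 * mm h - 2 - k) * uu h)) (64 * mm h) N)).card : ℝ) ≤
      (X : ℝ) / 2 ^ (100 * mm h ^ 2 * h) + 2 ^ (400000000 * h ^ 4) := by
  have hyl : 3000 ≤ yy h := by
    unfold yy mm
    nlinarith
  have hul : yy h ≤ uu h := by unfold uu; omega
  have hml : mm h = 6 * h + 4 := rfl
  have hcond : (2 ^ (8 * mm h * uu h)) ^ 2 * 2 ^ (yy h) ≤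
      2 ^ (6 * mm h * uu h) * (2 ^ ((6 * mm h - 2 - k) * uu h)) ^ 2 := by
    rw [← pow_mul, ← pow_mul, ← pow_add, ← pow_add]
    apply Nat.pow_le_pow_right (by norm_num)
    have h1 : 5 * mm h + 3 ≤ 6 * mm h - 2 - k := by omega
    have h2 : (5 * mm h + 3) * uu h ≤ (6 * mm h - 2 - k) * uu h := Nat.mul_le_mul_right _ h1
    nlinarith
  have h0 := hCNT (2 ^ h) (2 ^ (yy h)) (2 ^ (6 * mm h * uu h)) (2 ^ (8 * mm h * uu h))
    (2 ^ ((6 * mm h - 2 - k) * uu h)) (32 * mm h) X Nat.one_le_two_pow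
    (by
      calc 2 = 2 ^ 1 := by norm_num
        _ ≤ 2 ^ (yy h) := Nat.pow_le_pow_right (by norm_num) (by omega))
    Nat.one_le_two_pow Nat.one_le_two_pow Nat.one_le_two_pow (by omega) hcond
  rw [show 2 * (32 * mm h) = 64 * mm h by ring] at h0
  refine h0.trans ?_
  have hlog : (3 : ℝ) * ((2 ^ h : ℕ) : ℝ) ^ 2 *
      (1 + Real.log ((2 ^ (8 * mm h * uu h) : ℕ) : ℝ)) ≤ 2 ^ (3 * h) := by
    have h1 : Real.log ((2 ^ (8 * mm h * uu h) : ℕ) : ℝ) ≤ (8 * mm h * uu h : ℕ) := by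
      push_cast
      rw [Real.log_pow]
      have : Real.log 2 ≤ 1 := by
        have := Real.log_two_lt_d9
        linarith
      push_cast
      have h3 : (0 : ℝ) ≤ 8 * (mm h : ℝ) * (uu h : ℝ) := by positivity
      nlinarith
    have h2 : (3 : ℝ) * (1 + (8 * mm h * uu h : ℕ)) ≤ 2 ^ h := by exact_mod_cast log_bound h hh
    have h3 : (3 : ℝ) * (1 + Real.log ((2 ^ (8 * mm h * uu h) : ℕ) : ℝ)) ≤ 2 ^ h := by linarith
    calc (3 : ℝ) * ((2 ^ h : ℕ) : ℝ) ^ 2 * (1 + Real.log ((2 ^ (8 * mm h * uu h) : ℕ) : ℝ))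
        = ((2 ^ h : ℕ) : ℝ) ^ 2 * (3 * (1 + Real.log ((2 ^ (8 * mm h * uu h) : ℕ) : ℝ))) := by ring
      _ ≤ ((2 ^ h : ℕ) : ℝ) ^ 2 * 2 ^ h := by gcongr
      _ = 2 ^ (3 * h) := by
        push_cast
        ring
  have hlog0 : 0 ≤ (3 : ℝ) * ((2 ^ h : ℕ) : ℝ) ^ 2 *
      (1 + Real.log ((2 ^ (8 * mm h * uu h) : ℕ) : ℝ)) := by
    have : 0 ≤ Real.log ((2 ^ (8 * mm h * uu h) : ℕ) : ℝ) :=
      Real.log_nonneg (by exact_mod_cast Nat.one_le_two_pow)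
    positivity
  have hX : (0 : ℝ) ≤ X := Nat.cast_nonneg X
  have e1 : (4 : ℝ) ^ (32 * mm h) * ((X : ℝ) * ((2 ^ h : ℕ) : ℝ) ^ ((64 * mm h) ^ 2) *
      (((2 ^ h : ℕ) : ℝ) * ((2 ^ (8 * mm h * uu h) : ℕ) : ℝ) ^ 2) *
      (3 * ((2 ^ h : ℕ) : ℝ) ^ 2 * (1 + Real.log ((2 ^ (8 * mm h * uu h) : ℕ) : ℝ))) ^
        (64 * mm h) / ((2 ^ (yy h) : ℕ) : ℝ) ^ (32 * mm h)) ≤
      (4 : ℝ) ^ (32 * mm h) * ((X : ℝ) * ((2 ^ h : ℕ) : ℝ) ^ ((64 * mm h) ^ 2) *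
      (((2 ^ h : ℕ) : ℝ) * ((2 ^ (8 * mm h * uu h) : ℕ) : ℝ) ^ 2) *
      (2 ^ (3 * h)) ^ (64 * mm h) / ((2 ^ (yy h) : ℕ) : ℝ) ^ (32 * mm h)) := by
    gcongr
  have e2 : (4 : ℝ) ^ (32 * mm h) * ((X : ℝ) * ((2 ^ h : ℕ) : ℝ) ^ ((64 * mm h) ^ 2) *
      (((2 ^ h : ℕ) : ℝ) * ((2 ^ (8 * mm h * uu h) : ℕ) : ℝ) ^ 2) *
      (2 ^ (3 * h)) ^ (64 * mm h) / ((2 ^ (yy h) : ℕ) : ℝ) ^ (32 * mm h)) =
      (X : ℝ) * 2 ^ (64 * mm h + h * (64 * mm h) ^ 2 + (h + 16 * mm h * uu h) +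
        192 * mm h * h) / 2 ^ (32 * mm h * yy h) := by
    push_cast
    rw [show (4 : ℝ) = 2 ^ 2 by norm_num]
    simp only [← pow_mul, ← pow_add]
    rw [← mul_div_assoc]
    congr 1
    · rw [show (2 : ℝ) ^ (2 * (32 * mm h)) * ((X : ℝ) * 2 ^ (h * (64 * mm h) ^ 2) *
        2 ^ (h + 8 * mm h * uu h * 2) * 2 ^ (3 * h * (64 * mm h))) =
        (X : ℝ) * (2 ^ (2 * (32 * mm h)) * 2 ^ (h * (64 * mm h) ^ 2) *
        2 ^ (h + 8 * mm h * uu h * 2) * 2 ^ (3 * h * (64 * mm h))) by ring]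
      congr 1
      rw [← pow_add, ← pow_add, ← pow_add]
      congr 1
      ring
    · congr 1
      ring
  have e3 : (X : ℝ) * 2 ^ (64 * mm h + h * (64 * mm h) ^ 2 + (h + 16 * mm h * uu h) +
        192 * mm h * h) / 2 ^ (32 * mm h * yy h) ≤ (X : ℝ) / 2 ^ (100 * mm h ^ 2 * h) := by
    rw [div_le_div_iff₀ (by positivity) (by positivity), mul_assoc, ← pow_add]
    apply mul_le_mul_of_nonneg_left _ hX
    apply pow_le_pow_right₀ (by norm_num)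
    exact exp_main h (by omega)
  have e4 : (4 : ℝ) ^ (32 * mm h) * (((2 ^ h : ℕ) : ℝ) *
      ((2 ^ (8 * mm h * uu h) : ℕ) : ℝ) ^ 2) ^ (64 * mm h) ≤ 2 ^ (400000000 * h ^ 4) := by
    have e5 : (4 : ℝ) ^ (32 * mm h) * (((2 ^ h : ℕ) : ℝ) *
      ((2 ^ (8 * mm h * uu h) : ℕ) : ℝ) ^ 2) ^ (64 * mm h) =
      2 ^ (64 * mm h + (h + 16 * mm h * uu h) * (64 * mm h)) := by
      push_cast
      rw [show (4 : ℝ) = 2 ^ 2 by norm_num]
      simp only [← pow_mul, ← pow_add]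
      congr 1
      ring
    rw [e5]
    apply pow_le_pow_right₀ (by norm_num)
    exact exp_tuples h (by omega)
  rw [mul_add]
  exact add_le_add (e1.trans (e2.le.trans e3)) e4

end Pool.Agent.N333.GR.Par
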