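import Pool.Agent.N333.GR.Stm

/-!
# The gcd recursion as a walk (project GR, part REC)
-/

set_option autoImplicit false

namespace Pool.Agent.N333.GR.Rec

open Pool.Agent.N333.GR

/-- the second argument of the gcd -/
def V (N n : ℕ) : ℤ := (N : ℤ) - (-1) ^ n * ((N : ℤ) - (n : ℤ))

/-- the jump -/
noncomputable def jj (N n : ℕ) : ℕ := Int.gcd (a N (n - 1)) (V N n)

lemma a_one (N : ℕ) : a N 1 = (N : ℤ) - 2 := rfl

lemma a_step (N n : ℕ) (hn : 2 ≤ n) : a N n = a N (n - 1) - (jj N n : ℤ) := by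
  obtain ⟨m, rfl⟩ : ∃ m, n = m + 2 := ⟨n - 2, by omega⟩
  rfl

lemma V_even (N n : ℕ) (hn : n % 2 = 0) : V N n = n := by
  have : Even n := Nat.even_iff.2 hn
  rw [V, this.neg_one_pow]
  ring

lemma V_odd (N n : ℕ) (hn : n % 2 = 1) : V N n = 2 * N - n := by
  have : Odd n := Nat.odd_iff.2 hn
  rw [V, this.neg_one_pow]
  ring

lemma jj_pos (N n : ℕ) (h : a N (n - 1) ≠ 0) : 1 ≤ jj N n :=
  Int.gcd_pos_of_ne_zero_left _ h

lemma jj_le (N n : ℕ) (h : 0 < a N (n - 1)) : (jj N n : ℤ) ≤ a N (n - 1) :=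
  Int.le_of_dvd h (Int.gcd_dvd_left _ _)

lemma ne (N : ℕ) (hN : 3 ≤ N) : {n : ℕ | 2 ≤ n ∧ a N n = 0}.Nonempty := by
  by_contra hne
  rw [Set.not_nonempty_iff_eq_empty] at hne
  have h0 : ∀ n, 2 ≤ n → a N n ≠ 0 := by
    intro n hn h
    have : n ∈ {n : ℕ | 2 ≤ n ∧ a N n = 0} := ⟨hn, h⟩
    rw [hne] at this
    exact this
  have h1 : ∀ n, 1 ≤ n → 0 < a N n ∧ a N n ≤ (N : ℤ) - 1 - n := by
    intro n hn
    induction n, hn using Nat.le_induction with
    | base => rw [a_one]; push_cast; omega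
    | succ k hk ih =>
      have h2 := a_step N (k + 1) (by omega)
      rw [Nat.add_sub_cancel] at h2
      have h3 := jj_pos N (k + 1) (by rw [Nat.add_sub_cancel]; exact ih.1.ne')
      have h4 := jj_le N (k + 1) (by rw [Nat.add_sub_cancel]; exact ih.1)
      rw [Nat.add_sub_cancel] at h4
      have h5 := h0 (k + 1) (by omega)
      push_cast
      omega
  have := h1 N (by omega)
  omega

theorem t_REC : S_REC := by
  intro N hN
  have hmem : g N ∈ {n : ℕ | 2 ≤ n ∧ a N n = 0} := Nat.sInf_mem (ne N hN)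
  have hg2 : 2 ≤ g N := hmem.1
  have hpos : ∀ n, 1 ≤ n → n < g N → 0 < a N n := by
    intro n hn
    induction n, hn using Nat.le_induction with
    | base => intro _; rw [a_one]; omega
    | succ k hk ih =>
      intro hkg
      have ih := ih (by omega)
      have h2 := a_step N (k + 1) (by omega)
      have h4 := jj_le N (k + 1) (by rw [Nat.add_sub_cancel]; exact ih)
      rw [Nat.add_sub_cancel] at h2 h4
      have h5 : a N (k + 1) ≠ 0 := by
        intro h
        exact Nat.notMem_of_lt_sInf (s := {n : ℕ | 2 ≤ n ∧ a N n = 0}) hkg ⟨by omega, h⟩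
      omega
  have hj : ∀ n, 2 ≤ n → n ≤ g N → 1 ≤ jj N n := fun n h1 h2 =>
    jj_pos N n (hpos (n - 1) (by omega) (by omega)).ne'
  have hTi : ∀ n, 2 ≤ n → n ≤ g N + 1 → 0 < 2 * (N : ℤ) - n - 2 * a N (n - 1) := by
    intro n hn
    induction n, hn using Nat.le_induction with
    | base => intro _; show 0 < 2 * (N : ℤ) - (2 : ℕ) - 2 * a N 1; rw [a_one]; push_cast; omega
    | succ k hk ih =>
      intro hkg
      have ih := ih (by omega)
      have h2 := a_step N k hk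
      have h3 := hj k hk (by omega)
      rw [Nat.add_sub_cancel]
      push_cast
      omega
  have hT : ∀ n, 2 ≤ n → n ≤ g N + 1 →
      (((2 * (N : ℤ) - n - 2 * a N (n - 1)).toNat : ℕ) : ℤ) = 2 * N - n - 2 * a N (n - 1) :=
    fun n h1 h2 => Int.toNat_of_nonneg (hTi n h1 h2).le
  refine ⟨⟨hg2, hmem.2⟩, hpos, fun n => (2 * (N : ℤ) - n - 2 * a N (n - 1)).toNat, jj N,
    ⟨?_, hj, ?_, ?_, ?_, ?_⟩, hT⟩
  · show (2 * (N : ℤ) - (2 : ℕ) - 2 * a N 1).toNat = 2
    rw [a_one]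
    push_cast
    omega
  · intro n h1 h2
    have h3 := hT n h1 (by omega)
    have h4 := hT (n + 1) (by omega) (by omega)
    have h5 := a_step N n h1
    rw [Nat.add_sub_cancel] at h4
    push_cast at h4
    show (2 * (N : ℤ) - ((n + 1 : ℕ) : ℤ) - 2 * a N (n + 1 - 1)).toNat + 1
      = (2 * (N : ℤ) - n - 2 * a N (n - 1)).toNat + 2 * jj N n
    rw [Nat.add_sub_cancel]
    push_cast
    omega
  · intro n h1 h2 ho
    have h3 := hT n h1 (by omega)
    show jj N n ∣ (2 * (N : ℤ) - n - 2 * a N (n - 1)).toNat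
    rw [← Int.natCast_dvd_natCast, h3, ← V_odd N n ho]
    exact dvd_sub (Int.gcd_dvd_right _ _) ((Int.gcd_dvd_left _ _).mul_left 2)
  · intro n h1 h2 ho
    rw [← V_odd N n ho]
    exact Int.gcd_dvd_right _ _
  · intro n h1 h2 he
    have h3 : (jj N n : ℤ) ∣ (n : ℤ) := by
      conv_rhs => rw [← V_even N n he]
      exact Int.gcd_dvd_right _ _
    exact Nat.le_of_dvd (by omega) (Int.natCast_dvd_natCast.1 h3)

end Pool.Agent.N333.GR.Rec
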