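import Pool.Agent.N333.GR.Stm

/-!
# Project GR (helper333), part RUN (helper891): growth of the number of jumps without bad runs
-/

set_option autoImplicit false

namespace Pool.Agent.N333.GR.Run

open Finset Pool.Agent.N333.GR

/-- telescoping -/
theorem T_eq {N G : ℕ} {T j : ℕ → ℕ} (hW : Walk N G T j) {p : ℕ} (hp : 2 ≤ p) (m : ℕ)
    (hm : p + m ≤ G + 1) : T (p + m) = T p + ∑ x ∈ range m, (2 * j (p + x) - 1) := by
  induction m with
  | zero => simp
  | succ m ih =>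
    have h1 := ih (by omega)
    have h2 := hW.step (p + m) (by omega) (by omega)
    have h3 := hW.pos (p + m) (by omega) (by omega)
    rw [sum_range_succ, ← add_assoc, ← add_assoc]
    omega

theorem T_mono {N G : ℕ} {T j : ℕ → ℕ} (hW : Walk N G T j) {p x : ℕ} (hp : 2 ≤ p) (hpx : p ≤ x)
    (hx : x ≤ G + 1) : T p ≤ T x := by
  obtain ⟨m, rfl⟩ := Nat.exists_eq_add_of_le hpx
  rw [T_eq hW hp m hx]
  exact Nat.le_add_right _ _

/-- the value of `T` at the next element -/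
theorem gap {N G : ℕ} {T j : ℕ → ℕ} (hW : Walk N G T j) {p q E : ℕ} (hp : 2 ≤ p) (hpq : p + 1 < q)
    (hq : q ≤ G) (hE : ∀ x, p < x → x < q → j x ≤ E) (hE1 : 1 ≤ E) :
    T p + 2 * j p ≤ T q ∧ T q + 1 ≤ T p + 2 * j p + 2 * G * E := by
  obtain ⟨m, hm⟩ : ∃ m, q = p + (m + 1 + 1) := ⟨q - p - 2, by omega⟩
  have h1 := T_eq hW hp (m + 1 + 1) (by omega)
  rw [← hm, sum_range_succ'] at h1
  have hj := hW.pos p hp (by omega)
  rw [add_zero] at h1
  have h2 : ∑ x ∈ range (m + 1), (2 * j (p + (x + 1)) - 1) ≤ ∑ _x ∈ range (m + 1), (2 * E) := by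
    refine sum_le_sum fun x hx => ?_
    rw [mem_range] at hx
    have := hE (p + (x + 1)) (by omega) (by omega)
    omega
  rw [sum_const, card_range, smul_eq_mul] at h2
  have h3 : 1 ≤ ∑ x ∈ range (m + 1), (2 * j (p + (x + 1)) - 1) := by
    rw [sum_range_succ']
    have := hW.pos (p + (0 + 1)) (by omega) (by omega)
    omega
  have h4 : (m + 1) * (2 * E) ≤ 2 * G * E := by
    calc (m + 1) * (2 * E) ≤ G * (2 * E) := Nat.mul_le_mul_right _ (by omega)
      _ = 2 * G * E := by ring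
  constructor
  · omega
  · omega

open Classical in
theorem step (hDBL : S_DBL) {N G Y T0 Ts r D D' : ℕ} {T j : ℕ → ℕ} (hW : Walk N G T j)
    (hTs : ∀ n, 2 ≤ n → n ≤ G → T n ≤ Ts) (hr : 2 ≤ r) (hY : 1 ≤ Y) (hG : 1 ≤ G) (hD' : G < D')
    (hDD : 2 * G * Y * D' ≤ D) (hB : ¬ BadRun G Y T0 Ts D r N) (hrJ : r ≤ (J G T0 D T j).card) :
    J G T0 D T j ⊆ J G T0 D' T j ∧ 9 * (J G T0 D T j).card ≤ 8 * (J G T0 D' T j).card := by
  have hDle : D' ≤ D := by
    have h1 : 1 ≤ 2 * G * Y := by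
      have : 0 < 2 * G * Y := by positivity
      omega
    calc D' = 1 * D' := (one_mul _).symm
      _ ≤ (2 * G * Y) * D' := Nat.mul_le_mul_right _ h1
      _ ≤ D := hDD
  have hsub : J G T0 D T j ⊆ J G T0 D' T j := by
    intro x hx
    unfold J at hx ⊢
    rw [mem_filter] at hx ⊢
    exact ⟨hx.1, hx.2.1, hDle.trans hx.2.2⟩
  refine ⟨hsub, ?_⟩
  have hJm : ∀ (D x : ℕ), x ∈ J G T0 D T j ↔ (2 ≤ x ∧ x ≤ G) ∧ T0 ≤ T x ∧ D ≤ j x := by
    intro D x
    unfold J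
    rw [mem_filter, mem_Icc]
  have hodd : ∀ x ∈ J G T0 D T j, x % 2 = 1 := by
    intro x hx
    obtain ⟨⟨h1, h2⟩, h3, h4⟩ := (hJm D x).1 hx
    by_contra h5
    have h6 := hW.even x h1 h2 (by omega)
    omega
  -- the enumeration of `J`
  obtain ⟨f, hf⟩ : ∃ f : ℕ → ℕ, f = fun i => if h : i < (J G T0 D T j).card then
    (J G T0 D T j).orderEmbOfFin rfl ⟨i, h⟩ else 0 := ⟨_, rfl⟩
  have hfv : ∀ i (h : i < (J G T0 D T j).card), f i = (J G T0 D T j).orderEmbOfFin rfl ⟨i, h⟩ := by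
    intro i h
    rw [hf]
    exact dif_pos h
  have hfm : ∀ i, i < (J G T0 D T j).card → f i ∈ J G T0 D T j := by
    intro i h
    rw [hfv i h]
    exact orderEmbOfFin_mem _ _ _
  have hfl : ∀ i, i + 1 < (J G T0 D T j).card → f i < f (i + 1) := by
    intro i h
    rw [hfv i (by omega), hfv (i + 1) h]
    refine ((J G T0 D T j).orderEmbOfFin rfl).lt_iff_lt.2 ?_
    rw [Fin.mk_lt_mk]
    omega
  have hfn : ∀ i x, i + 1 < (J G T0 D T j).card → f i < x → x < f (i + 1) → x ∉ J G T0 D T j := by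
    intro i x h h1 h2 hx
    have h3 : x ∈ Set.range ((J G T0 D T j).orderEmbOfFin rfl) := by
      rw [range_orderEmbOfFin]
      exact hx
    obtain ⟨⟨k, hk⟩, rfl⟩ := h3
    rw [hfv i (by omega)] at h1
    rw [hfv (i + 1) h] at h2
    have h4 := ((J G T0 D T j).orderEmbOfFin rfl).lt_iff_lt.1 h1
    have h5 := ((J G T0 D T j).orderEmbOfFin rfl).lt_iff_lt.1 h2
    rw [Fin.mk_lt_mk] at h4 h5
    omega
  refine hDBL _ _ f r hr hrJ hsub hfm hfl hfn ?_
  intro i0 hi0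
  -- neighbours
  have hnb : ∀ i, i + 1 < r → f (i0 + i) < f (i0 + (i + 1)) := by
    intro i hi
    have := hfl (i0 + i) (by omega)
    rwa [add_assoc] at this
  have hnb2 : ∀ i, i + 1 < r → f (i0 + i) + 1 < f (i0 + (i + 1)) := by
    intro i hi
    have h1 := hnb i hi
    have h2 := hodd _ (hfm (i0 + i) (by omega))
    have h3 := hodd _ (hfm (i0 + (i + 1)) (by omega))
    omega
  have hin : ∀ i, i + 1 < r → ∀ x, f (i0 + i) < x → x < f (i0 + (i + 1)) →
      (2 ≤ x ∧ x ≤ G) ∧ T0 ≤ T x ∧ x ∉ J G T0 D T j := by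
    intro i hi x h1 h2
    obtain ⟨⟨a1, a2⟩, a3, a4⟩ := (hJm D _).1 (hfm (i0 + i) (by omega))
    obtain ⟨⟨b1, b2⟩, b3, b4⟩ := (hJm D _).1 (hfm (i0 + (i + 1)) (by omega))
    refine ⟨⟨by omega, by omega⟩, a3.trans (T_mono hW a1 h1.le (by omega)), ?_⟩
    exact hfn (i0 + i) x (by omega) h1 (by rwa [add_assoc])
  have hD1 : 1 ≤ D := by omega
  obtain ⟨A, hA⟩ : ∃ A : Finset ℕ, A = (range (r - 1)).filter (fun i => Y * (T (f (i0 + (i + 1))) -
    (T (f (i0 + i)) + 2 * j (f (i0 + i)))) < j (f (i0 + (i + 1)))) := ⟨_, rfl⟩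
  have hAr : 2 * A.card < r := by
    by_contra hcon
    push Not at hcon
    apply hB
    refine ⟨fun i => f (i0 + i), fun i => T (f (i0 + i)), fun i => j (f (i0 + i)), ?_, ?_, ?_⟩
    · intro i hi
      have hm := hfm (i0 + i) (by omega)
      obtain ⟨⟨a1, a2⟩, a3, a4⟩ := (hJm D _).1 hm
      exact ⟨a2, hodd _ hm, a3, hTs _ a1 a2, a4, hW.dvdT _ a1 a2 (hodd _ hm),
        hW.dvdN _ a1 a2 (hodd _ hm)⟩
    · intro i hi
      obtain ⟨⟨a1, a2⟩, a3, a4⟩ := (hJm D _).1 (hfm (i0 + i) (by omega))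
      obtain ⟨⟨b1, b2⟩, b3, b4⟩ := (hJm D _).1 (hfm (i0 + (i + 1)) (by omega))
      obtain ⟨g1, g2⟩ := gap hW (E := D) a1 (hnb2 i hi) b2 (fun x h1 h2 => by
        obtain ⟨h3, h4, h5⟩ := hin i hi x h1 h2
        by_contra h6
        exact h5 ((hJm D x).2 ⟨h3, h4, by omega⟩)) hD1
      refine ⟨hnb i hi, g1, ?_⟩
      have h7 : 2 * G * D ≤ 2 * G * j (f (i0 + (i + 1))) := Nat.mul_le_mul_left _ b4
      show T (f (i0 + (i + 1))) ≤ T (f (i0 + i)) + 2 * j (f (i0 + i)) + 2 * G * j (f (i0 + (i + 1)))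
      omega
    · rw [hA] at hcon
      exact hcon
  have hsplit : (range (r - 1)).card = A.card + ((range (r - 1)).filter (fun i => ¬ (Y *
      (T (f (i0 + (i + 1))) - (T (f (i0 + i)) + 2 * j (f (i0 + i)))) < j (f (i0 + (i + 1)))))).card := by
    rw [hA]
    exact (card_filter_add_card_filter_not _).symm
  rw [card_range] at hsplit
  have hle : ((range (r - 1)).filter (fun i => ¬ (Y *
      (T (f (i0 + (i + 1))) - (T (f (i0 + i)) + 2 * j (f (i0 + i)))) < j (f (i0 + (i + 1)))))).card ≤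
      ((range (r - 1)).filter (fun i => ∃ x ∈ J G T0 D' T j, f (i0 + i) < x ∧
        x < f (i0 + i + 1))).card := by
    refine card_le_card ?_
    intro i hi
    rw [mem_filter, mem_range] at hi ⊢
    obtain ⟨hi1, hi2⟩ := hi
    have hi3 : i + 1 < r := by omega
    refine ⟨hi1, ?_⟩
    by_contra hcon
    push Not at hcon
    apply hi2
    obtain ⟨⟨a1, a2⟩, a3, a4⟩ := (hJm D _).1 (hfm (i0 + i) (by omega))
    obtain ⟨⟨b1, b2⟩, b3, b4⟩ := (hJm D _).1 (hfm (i0 + (i + 1)) (by omega))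
    obtain ⟨g1, g2⟩ := gap hW (E := D') a1 (hnb2 i hi3) b2 (fun x h1 h2 => by
      obtain ⟨h3, h4, h5⟩ := hin i hi3 x h1 h2
      by_contra h6
      have h7 := hcon x ((hJm D' x).2 ⟨h3, h4, by omega⟩) h1
      rw [add_assoc] at h7
      omega) (by omega)
    have h8 : T (f (i0 + (i + 1))) - (T (f (i0 + i)) + 2 * j (f (i0 + i))) < 2 * G * D' := by omega
    have h9 : Y * (T (f (i0 + (i + 1))) - (T (f (i0 + i)) + 2 * j (f (i0 + i)))) < Y * (2 * G * D') :=
      Nat.mul_lt_mul_of_pos_left h8 hY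
    have h10 : Y * (2 * G * D') = 2 * G * Y * D' := by ring
    omega
  omega

theorem t_RUN (hDBL : S_DBL) : S_RUN := by
  intro N G Y T0 Ts r K T j D hW hTs hr hY hG hD hDD hB hr0
  have key : ∀ k, k ≤ K → r ≤ (J G T0 (D k) T j).card ∧
      9 ^ k * (J G T0 (D 0) T j).card ≤ 8 ^ k * (J G T0 (D k) T j).card := by
    intro k
    induction k with
    | zero => intro _; exact ⟨hr0, by simp⟩
    | succ k ih =>
      intro hk
      obtain ⟨h1, h2⟩ := ih (by omega)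
      obtain ⟨h3, h4⟩ := step hDBL hW hTs hr hY hG (hD (k + 1) hk) (hDD k (by omega))
        (hB k (by omega)) h1
      refine ⟨h1.trans (card_le_card h3), ?_⟩
      calc 9 ^ (k + 1) * (J G T0 (D 0) T j).card = 9 * (9 ^ k * (J G T0 (D 0) T j).card) := by ring
        _ ≤ 9 * (8 ^ k * (J G T0 (D k) T j).card) := Nat.mul_le_mul_left _ h2
        _ = 8 ^ k * (9 * (J G T0 (D k) T j).card) := by ring
        _ ≤ 8 ^ k * (8 * (J G T0 (D (k + 1)) T j).card) := Nat.mul_le_mul_left _ h4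
        _ = 8 ^ (k + 1) * (J G T0 (D (k + 1)) T j).card := by ring
  refine (key K le_rfl).2.trans (Nat.mul_le_mul_left _ ?_)
  unfold J
  refine (card_filter_le _ _).trans ?_
  rw [Nat.card_Icc]
  omega

end Pool.Agent.N333.GR.Run
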