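import Mathlib

/-!
# The gcd recursion for Goldbach pairs: slow descent for almost all `N` (statements of the parts)

`a N` is the recursion of MP_b5e119_nt, `g N` its least zero `n ≥ 2`. While `n ≤ g N` put
`T n = 2 N - n - 2 a (n-1)` and let `j n` be the gcd at step `n` (the jump). Then `T 2 = 2`,
`T (n+1) = T n + 2 j n - 1`, at odd steps `j n` divides `T n` and `2 N - n`, at even steps `j n ≤ n`.
-/

set_option autoImplicit false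

namespace Pool.Agent.N333.GR

open Finset

/-- the recursion `a_1 = N - 2`, `a_n = a_{n-1} - gcd (a_{n-1}, N - (-1)^n (N - n))` -/
noncomputable def a (N : ℕ) : ℕ → ℤ
  | 0 => 0
  | 1 => (N : ℤ) - 2
  | (n + 2) => a N (n + 1) - ((Int.gcd (a N (n + 1))
      ((N : ℤ) - (-1) ^ (n + 2) * ((N : ℤ) - ((n + 2 : ℕ) : ℤ))) : ℕ) : ℤ)

/-- `g_N`: the least `n ≥ 2` with `a_n = 0` -/
noncomputable def g (N : ℕ) : ℕ := sInf {n : ℕ | 2 ≤ n ∧ a N n = 0}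

/-- the walk of one `N` up to the time `G` -/
structure Walk (N G : ℕ) (T j : ℕ → ℕ) : Prop where
  start : T 2 = 2
  pos : ∀ n, 2 ≤ n → n ≤ G → 1 ≤ j n
  step : ∀ n, 2 ≤ n → n ≤ G → T (n + 1) + 1 = T n + 2 * j n
  dvdT : ∀ n, 2 ≤ n → n ≤ G → n % 2 = 1 → j n ∣ T n
  dvdN : ∀ n, 2 ≤ n → n ≤ G → n % 2 = 1 → (j n : ℤ) ∣ 2 * (N : ℤ) - n
  even : ∀ n, 2 ≤ n → n ≤ G → n % 2 = 0 → j n ≤ n

/-- the times up to `G` with `T n ≥ T0` and a jump of size at least `D` -/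
def J (G T0 D : ℕ) (T j : ℕ → ℕ) : Finset ℕ := (Icc 2 G).filter (fun n => T0 ≤ T n ∧ D ≤ j n)

open Classical in
/-- `r` successive jumps of size at least `D` such that the sums in between are small for at least
half of the pairs of neighbours: an event which is rare in `N` -/
def BadRun (G Y T0 Ts D r N : ℕ) : Prop :=
  ∃ n t d : ℕ → ℕ,
    (∀ i, i < r → n i ≤ G ∧ n i % 2 = 1 ∧ T0 ≤ t i ∧ t i ≤ Ts ∧ D ≤ d i ∧ d i ∣ t i ∧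
      (d i : ℤ) ∣ 2 * (N : ℤ) - n i) ∧
    (∀ i, i + 1 < r → n i < n (i + 1) ∧ t i + 2 * d i ≤ t (i + 1) ∧
      t (i + 1) ≤ t i + 2 * d i + 2 * G * d (i + 1)) ∧
    r ≤ 2 * ((range (r - 1)).filter
      (fun i => Y * (t (i + 1) - (t i + 2 * d i)) < d (i + 1))).card

/-- **REC** the recursion gives a walk -/
def S_REC : Prop := ∀ N : ℕ, 3 ≤ N → (2 ≤ g N ∧ a N (g N) = 0) ∧
  (∀ n, 1 ≤ n → n < g N → 0 < a N n) ∧
  ∃ T j : ℕ → ℕ, Walk N (g N) T j ∧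
    ∀ n, 2 ≤ n → n ≤ g N + 1 → (T n : ℤ) = 2 * N - n - 2 * a N (n - 1)

/-- **BIG** many big jumps while `T` grows from `T0` to `4 ^ M T0` -/
def S_BIG : Prop := ∀ (N G T0 D M : ℕ) (T j : ℕ → ℕ), Walk N G T j → 1 ≤ G → 3 ≤ T0 → G ≤ T0 →
  2 * G * D < T0 → 4 ^ M * T0 < T (G + 1) → M ≤ (J G T0 D T j).card

open Classical in
/-- **DBL** counting: in each run of `r` successive elements of `J` at least half of the gaps contain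
an element of `J'` -/
def S_DBL : Prop := ∀ (J J' : Finset ℕ) (f : ℕ → ℕ) (r : ℕ), 2 ≤ r → r ≤ J.card → J ⊆ J' →
  (∀ i, i < J.card → f i ∈ J) → (∀ i, i + 1 < J.card → f i < f (i + 1)) →
  (∀ i x, i + 1 < J.card → f i < x → x < f (i + 1) → x ∉ J) →
  (∀ i0, i0 + r ≤ J.card → r - 1 ≤ 2 * ((range (r - 1)).filter
    (fun i => ∃ x ∈ J', f (i0 + i) < x ∧ x < f (i0 + i + 1))).card) →
  9 * J.card ≤ 8 * J'.card

/-- **RUN** without bad runs the number of jumps grows by the factor `9/8` from level to level -/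
def S_RUN : Prop := ∀ (N G Y T0 Ts r K : ℕ) (T j D : ℕ → ℕ), Walk N G T j →
  (∀ n, 2 ≤ n → n ≤ G → T n ≤ Ts) → 2 ≤ r → 1 ≤ Y → 1 ≤ G → (∀ k, k ≤ K → G < D k) →
  (∀ k, k < K → 2 * G * Y * D (k + 1) ≤ D k) →
  (∀ k, k < K → ¬ BadRun G Y T0 Ts (D k) r N) → r ≤ (J G T0 (D 0) T j).card →
  9 ^ K * (J G T0 (D 0) T j).card ≤ 8 ^ K * G

open Classical in
/-- **CRT** the number of `N ≤ X` with `d ∣ 2 N - n` for all pairs `(n, d)` of a list -/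
def S_CRT : Prop := ∀ (G X : ℕ) (c : List (ℕ × ℕ)), 1 ≤ G → c.Pairwise (fun p q => q.1 < p.1) →
  (∀ p ∈ c, p.1 ≤ G ∧ p.1 % 2 = 1 ∧ 0 < p.2) →
  (((Icc 1 X).filter (fun N : ℕ => ∀ p ∈ c, (p.2 : ℤ) ∣ 2 * (N : ℤ) - p.1)).card : ℝ) ≤
    (X : ℝ) * (G : ℝ) ^ (c.length ^ 2) / ((c.map Prod.snd).prod : ℕ) + 1

/-- **WB** the weight of a step with a small sum in between -/
def S_WB : Prop := ∀ (D T0 Ts Y t' : ℕ), 1 ≤ D → 2 ≤ Y → 1 ≤ T0 → T0 ≤ t' →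
  Ts ^ 2 * Y ≤ T0 * D ^ 2 →
  ∑ d ∈ Icc D Ts, ∑ _t ∈ (Icc 1 Ts).filter (fun t => d ∣ t ∧ t' ≤ t ∧ Y * (t - t') < d),
    (1 / (d : ℝ)) ≤ 3 * (1 + Real.log Ts) / Y

/-- **WA** the weight of an arbitrary step -/
def S_WA : Prop := ∀ (D Ts G t' : ℕ), 1 ≤ D → 1 ≤ G →
  ∑ d ∈ Icc D Ts, ∑ _t ∈ (Icc 1 Ts).filter (fun t => d ∣ t ∧ t' ≤ t ∧ t ≤ t' + 2 * G * d),
    (1 / (d : ℝ)) ≤ 3 * G * (1 + Real.log Ts)

open Classical in
/-- **CNT** the number of `N ≤ X` with a bad run of length `2 b` at the level `D` -/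
def S_CNT : Prop := ∀ (G Y T0 Ts D b X : ℕ), 1 ≤ G → 2 ≤ Y → 1 ≤ T0 → 1 ≤ Ts → 1 ≤ D → 1 ≤ b →
  Ts ^ 2 * Y ≤ T0 * D ^ 2 →
  (((Icc 1 X).filter (fun N : ℕ => BadRun G Y T0 Ts D (2 * b) N)).card : ℝ) ≤
    4 ^ b * ((X : ℝ) * (G : ℝ) ^ ((2 * b) ^ 2) * (G * (Ts : ℝ) ^ 2) *
      (3 * (G : ℝ) ^ 2 * (1 + Real.log Ts)) ^ (2 * b) / (Y : ℝ) ^ b +
      (G * (Ts : ℝ) ^ 2) ^ (2 * b))

end Pool.Agent.N333.GR
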