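import Pool.Agent.N333.GR.Stm

/-!
# Project GR (helper333): the two weight sums WB and WA (helper767)
-/

set_option autoImplicit false

namespace Pool.Agent.N333.GR.Wt

open Finset

/-- the harmonic sum, real form -/
lemma harm (n : ℕ) : ∑ d ∈ Icc 1 n, (1 / (d : ℝ)) ≤ 1 + Real.log n := by
  have h := harmonic_le_one_add_log n
  rw [harmonic_eq_sum_Icc] at h
  push_cast at h
  simpa [one_div] using h

lemma log_nonneg' (n : ℕ) : 0 ≤ Real.log (n : ℝ) := Real.log_natCast_nonneg n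

/-- the number of multiples of `d` in a window -/
lemma cardWA (Ts G t' d : ℕ) (hd : 1 ≤ d) :
    ((Icc 1 Ts).filter (fun t => d ∣ t ∧ t' ≤ t ∧ t ≤ t' + 2 * G * d)).card ≤ 2 * G + 1 := by
  have h : ((Icc 1 Ts).filter (fun t => d ∣ t ∧ t' ≤ t ∧ t ≤ t' + 2 * G * d)).card ≤
      (Icc (t' / d) (t' / d + 2 * G)).card := by
    apply Finset.card_le_card_of_injOn (fun t => t / d)
    · intro t ht
      simp only [coe_filter, Set.mem_ofPred_eq, mem_Icc] at ht
      obtain ⟨_, h1, h2, h3⟩ := ht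
      simp only [coe_Icc, Set.mem_Icc]
      refine ⟨Nat.div_le_div_right h2, ?_⟩
      have h4 := Nat.div_le_div_right (c := d) h3
      rwa [Nat.add_mul_div_right _ _ (by omega)] at h4
    · intro s hs t ht hst
      simp only [coe_filter, Set.mem_ofPred_eq, mem_Icc] at hs ht
      obtain ⟨u, rfl⟩ := hs.2.1
      obtain ⟨v, rfl⟩ := ht.2.1
      simp only [Nat.mul_div_cancel_left _ (show 0 < d by omega)] at hst
      rw [hst]
  rw [Nat.card_Icc] at h
  omega

/-- **(WA)** -/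
theorem t_WA : Pool.Agent.N333.GR.S_WA := by
  intro D Ts G t' hD hG
  have h1 : ∀ d ∈ Icc D Ts,
      ∑ _t ∈ (Icc 1 Ts).filter (fun t => d ∣ t ∧ t' ≤ t ∧ t ≤ t' + 2 * G * d), (1 / (d : ℝ)) ≤
        3 * G * (1 / (d : ℝ)) := by
    intro d hd
    rw [mem_Icc] at hd
    rw [sum_const, nsmul_eq_mul]
    have hc := cardWA Ts G t' d (by omega)
    have hc' : (((Icc 1 Ts).filter (fun t => d ∣ t ∧ t' ≤ t ∧ t ≤ t' + 2 * G * d)).card : ℝ) ≤
        3 * G := by
      have : ((Icc 1 Ts).filter (fun t => d ∣ t ∧ t' ≤ t ∧ t ≤ t' + 2 * G * d)).card ≤ 3 * G := by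
        omega
      exact_mod_cast this
    exact mul_le_mul_of_nonneg_right hc' (by positivity)
  refine (sum_le_sum h1).trans ?_
  rw [← mul_sum]
  have h2 : ∑ d ∈ Icc D Ts, (1 / (d : ℝ)) ≤ ∑ d ∈ Icc 1 Ts, (1 / (d : ℝ)) := by
    apply sum_le_sum_of_subset_of_nonneg
    · exact Icc_subset_Icc_left hD
    · intro i _ _; positivity
  exact mul_le_mul_of_nonneg_left (h2.trans (harm Ts)) (by positivity)

/-- the `d` belonging to one quotient `v` -/
lemma sumWB (D Ts Y t' v : ℕ) (_hD : 1 ≤ D) (hY : 2 ≤ Y) (ht : 1 ≤ t') (hv : 1 ≤ v) :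
    ∑ d ∈ (Icc D Ts).filter (fun d => t' ≤ v * d ∧ Y * (v * d - t') < d), (1 / (d : ℝ)) ≤
      2 / Y * (1 / (v : ℝ)) + v / t' := by
  have htR : (0 : ℝ) < t' := by exact_mod_cast ht
  have hvR : (0 : ℝ) < v := by exact_mod_cast hv
  have hv1 : (1 : ℝ) ≤ v := by exact_mod_cast hv
  have hYR : (2 : ℝ) ≤ Y := by exact_mod_cast hY
  have hYv : (2 : ℝ) ≤ Y * v := by nlinarith
  set A := (Icc D Ts).filter (fun d => t' ≤ v * d ∧ Y * (v * d - t') < d) with hA
  have hmem : ∀ d ∈ A, (t' : ℝ) ≤ v * d ∧ (d : ℝ) * (Y * v - 1) < Y * t' ∧ (0 : ℝ) < d := by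
    intro d hd
    rw [hA, mem_filter, mem_Icc] at hd
    obtain ⟨⟨h1, _⟩, h2, h3⟩ := hd
    have h2' : (t' : ℝ) ≤ v * d := by exact_mod_cast h2
    refine ⟨h2', ?_, ?_⟩
    · have h3' : ((Y * (v * d - t') : ℕ) : ℝ) < d := by exact_mod_cast h3
      rw [Nat.cast_mul, Nat.cast_sub h2] at h3'
      push_cast at h3'
      nlinarith
    · have : 1 ≤ d := by omega
      exact_mod_cast this
  have hterm : ∀ d ∈ A, (1 / (d : ℝ)) ≤ v / t' := by
    intro d hd
    obtain ⟨h1, _, h3⟩ := hmem d hd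
    rw [div_le_div_iff₀ h3 htR]
    linarith
  set a : ℝ := t' / v with ha
  set b : ℝ := Y * t' / (Y * v - 1) with hb
  have hab : a ≤ b := by
    rw [ha, hb, div_le_div_iff₀ hvR (by linarith)]
    nlinarith
  have ha0 : 0 ≤ a := by positivity
  have hb0 : 0 ≤ b := ha0.trans hab
  have hsub : A ⊆ Ico ⌈a⌉₊ ⌈b⌉₊ := by
    intro d hd
    obtain ⟨h1, h2, h3⟩ := hmem d hd
    rw [mem_Ico, Nat.ceil_le, Nat.lt_ceil]
    constructor
    · rw [ha, div_le_iff₀ hvR]; linarith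
    · rw [hb, lt_div_iff₀ (by linarith)]; linarith
  have hcard : (A.card : ℝ) ≤ b - a + 1 := by
    have h1 := card_le_card hsub
    rw [Nat.card_Ico] at h1
    have h2 : (A.card : ℝ) ≤ ((⌈b⌉₊ - ⌈a⌉₊ : ℕ) : ℝ) := by exact_mod_cast h1
    rw [Nat.cast_sub (Nat.ceil_mono hab)] at h2
    have h3 := Nat.ceil_lt_add_one hb0
    have h4 := Nat.le_ceil a
    linarith
  have hba : b - a = t' / (v * (Y * v - 1)) := by
    rw [ha, hb]
    have : (Y * v - 1 : ℝ) ≠ 0 := by
      have : (0 : ℝ) < Y * v - 1 := by linarith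
      exact this.ne'
    field_simp
    ring
  calc ∑ d ∈ A, (1 / (d : ℝ)) ≤ ∑ _d ∈ A, ((v : ℝ) / t') := sum_le_sum hterm
    _ = A.card * ((v : ℝ) / t') := by rw [sum_const, nsmul_eq_mul]
    _ ≤ (t' / (v * (Y * v - 1)) + 1) * ((v : ℝ) / t') := by
        rw [← hba]; exact mul_le_mul_of_nonneg_right hcard (by positivity)
    _ = 1 / (Y * v - 1) + v / t' := by
        have h : (0 : ℝ) < Y * v - 1 := by linarith
        have h' : (Y * v - 1 : ℝ) ≠ 0 := h.ne'
        field_simp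
    _ ≤ 2 / Y * (1 / (v : ℝ)) + v / t' := by
        have h : (0 : ℝ) < Y * v - 1 := by linarith
        have : 1 / (Y * v - 1 : ℝ) ≤ 2 / Y * (1 / (v : ℝ)) := by
          rw [div_mul_div_comm, mul_one, div_le_div_iff₀ h (by positivity)]
          linarith
        linarith

/-- **(WB)** -/
theorem t_WB : Pool.Agent.N333.GR.S_WB := by
  intro D T0 Ts Y t' hD hY hT0 htt hTs
  have ht' : 1 ≤ t' := hT0.trans htt
  have hYR : (2 : ℝ) ≤ Y := by exact_mod_cast hY
  have htR : (0 : ℝ) < t' := by exact_mod_cast ht'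
  set V := Ts / D with hV
  -- from `t` to the quotient
  have h1 : ∀ d ∈ Icc D Ts,
      ∑ _t ∈ (Icc 1 Ts).filter (fun t => d ∣ t ∧ t' ≤ t ∧ Y * (t - t') < d), (1 / (d : ℝ)) ≤
        ∑ _v ∈ (Icc 1 V).filter (fun v => t' ≤ v * d ∧ Y * (v * d - t') < d), (1 / (d : ℝ)) := by
    intro d hd
    rw [mem_Icc] at hd
    rw [sum_const, sum_const, nsmul_eq_mul, nsmul_eq_mul]
    refine mul_le_mul_of_nonneg_right ?_ (by positivity)
    norm_cast
    have hd0 : 0 < d := by omega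
    apply Finset.card_le_card_of_injOn (fun t => t / d)
    · intro t ht
      simp only [coe_filter, Set.mem_ofPred_eq, mem_Icc] at ht
      obtain ⟨⟨g1, g2⟩, ⟨u, rfl⟩, g3, g4⟩ := ht
      simp only [coe_filter, Set.mem_ofPred_eq, mem_Icc, Nat.mul_div_cancel_left _ hd0]
      have e : u * d = d * u := mul_comm _ _
      rw [e]
      refine ⟨⟨?_, ?_⟩, g3, g4⟩
      · rcases Nat.eq_zero_or_pos u with h | h
        · subst h; simp at g1
        · exact h
      · rw [hV, Nat.le_div_iff_mul_le (by omega)]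
        calc u * D ≤ u * d := Nat.mul_le_mul_left _ hd.1
          _ = d * u := mul_comm _ _
          _ ≤ Ts := g2
    · intro s hs t ht hst
      simp only [coe_filter, Set.mem_ofPred_eq, mem_Icc] at hs ht
      obtain ⟨u, rfl⟩ := hs.2.1
      obtain ⟨v, rfl⟩ := ht.2.1
      simp only [Nat.mul_div_cancel_left _ hd0] at hst
      rw [hst]
  refine (sum_le_sum h1).trans ?_
  -- swap
  have h2 : ∑ d ∈ Icc D Ts,
      ∑ _v ∈ (Icc 1 V).filter (fun v => t' ≤ v * d ∧ Y * (v * d - t') < d), (1 / (d : ℝ)) =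
      ∑ v ∈ Icc 1 V,
        ∑ d ∈ (Icc D Ts).filter (fun d => t' ≤ v * d ∧ Y * (v * d - t') < d), (1 / (d : ℝ)) := by
    simp only [sum_filter]
    exact sum_comm
  rw [h2]
  have h3 : ∀ v ∈ Icc 1 V,
      ∑ d ∈ (Icc D Ts).filter (fun d => t' ≤ v * d ∧ Y * (v * d - t') < d), (1 / (d : ℝ)) ≤
        2 / Y * (1 / (v : ℝ)) + V / t' := by
    intro v hv
    rw [mem_Icc] at hv
    refine (sumWB D Ts Y t' v hD hY ht' hv.1).trans ?_
    have : (v : ℝ) ≤ V := by exact_mod_cast hv.2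
    have h4 : (v : ℝ) / t' ≤ V / t' := div_le_div_of_nonneg_right this htR.le
    linarith
  refine (sum_le_sum h3).trans ?_
  rw [sum_add_distrib, ← mul_sum, sum_const, nsmul_eq_mul, Nat.card_Icc, Nat.add_sub_cancel]
  have h5 : V ^ 2 * Y ≤ t' := by
    have h6 : V * D ≤ Ts := Nat.div_mul_le_self Ts D
    have h7 : (V * D) ^ 2 ≤ Ts ^ 2 := Nat.pow_le_pow_left h6 2
    have h8 : V ^ 2 * Y * D ^ 2 ≤ T0 * D ^ 2 := by
      calc V ^ 2 * Y * D ^ 2 = (V * D) ^ 2 * Y := by ring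
        _ ≤ Ts ^ 2 * Y := Nat.mul_le_mul_right _ h7
        _ ≤ T0 * D ^ 2 := hTs
    have h9 : V ^ 2 * Y ≤ T0 := Nat.le_of_mul_le_mul_right h8 (by positivity)
    exact h9.trans htt
  have h6 : (V : ℝ) * (V / t') ≤ 1 / Y := by
    have h5' : (V : ℝ) ^ 2 * Y ≤ t' := by exact_mod_cast h5
    rw [mul_div_assoc', div_le_div_iff₀ htR (by linarith)]
    nlinarith
  have hVle : Real.log V ≤ Real.log Ts := by
    rcases Nat.eq_zero_or_pos V with h | h
    · rw [h]; simp; exact log_nonneg' Ts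
    · apply Real.log_le_log (by exact_mod_cast h)
      have : V ≤ Ts := Nat.div_le_self _ _
      exact_mod_cast this
  have hH := harm V
  have hlog := log_nonneg' Ts
  have hYp : (0 : ℝ) < Y := by linarith
  calc 2 / (Y : ℝ) * ∑ v ∈ Icc 1 V, (1 / (v : ℝ)) + V * (V / t')
      ≤ 2 / (Y : ℝ) * (1 + Real.log Ts) + 1 / Y := by
        refine add_le_add (mul_le_mul_of_nonneg_left (by linarith) (by positivity)) h6
    _ = (2 * (1 + Real.log Ts) + 1) / Y := by ring
    _ ≤ 3 * (1 + Real.log Ts) / Y := by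
        apply div_le_div_of_nonneg_right _ hYp.le
        linarith

end Pool.Agent.N333.GR.Wt
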